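import Mathlib

set_option autoImplicit false

namespace Pool.Agent.H160R3.Alg

open Matrix Finset

/-- the norm matrix -/
def Nm {n : ℕ} (A : Matrix (Fin n) (Fin n) ℤ) (N : ℕ) : Matrix (Fin n) (Fin n) ℤ :=
  ∑ i ∈ range N, A ^ i

theorem Nm_mul {n : ℕ} {A : Matrix (Fin n) (Fin n) ℤ} {N : ℕ} (hA : A ^ N = 1) :
    Nm A N * A = Nm A N := by
  have := geom_sum_mul A N
  rw [hA, sub_self, mul_sub, mul_one, sub_eq_zero] at this
  exact this

theorem mul_Nm {n : ℕ} {A : Matrix (Fin n) (Fin n) ℤ} {N : ℕ} (hA : A ^ N = 1) :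
    A * Nm A N = Nm A N := by
  have := mul_geom_sum A N
  rw [hA, sub_self, sub_mul, one_mul, sub_eq_zero] at this
  exact this

theorem Nm_mul_pow {n : ℕ} {A : Matrix (Fin n) (Fin n) ℤ} {N : ℕ} (hA : A ^ N = 1) (i : ℕ) :
    Nm A N * A ^ i = Nm A N := by
  induction i with
  | zero => simp
  | succ i ih => rw [pow_succ, ← mul_assoc, ih, Nm_mul hA]

theorem Nm_mul_Nm {n : ℕ} {A : Matrix (Fin n) (Fin n) ℤ} {N : ℕ} (hA : A ^ N = 1) :
    Nm A N * Nm A N = (N : ℤ) • Nm A N := by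
  conv_lhs => rw [show Nm A N * Nm A N = Nm A N * ∑ i ∈ range N, A ^ i from rfl]
  rw [Finset.mul_sum, Finset.sum_congr rfl (fun i _ => Nm_mul_pow hA i)]
  simp

/-- projection data -/
structure Dat (n N r : ℕ) (A : Matrix (Fin n) (Fin n) ℤ) where
  Φ : Matrix (Fin r) (Fin n) ℤ
  J : Matrix (Fin n) (Fin r) ℤ
  S : Matrix (Fin n) (Fin r) ℤ
  hJΦ : J * Φ = Nm A N
  hΦJ : Φ * J = (N : ℤ) • 1
  hΦS : Φ * S = 1

theorem exists_dat {n N : ℕ} {A : Matrix (Fin n) (Fin n) ℤ} (hA : A ^ N = 1) :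
    ∃ r, Nonempty (Dat n N r A) := by
  let f : (Fin n → ℤ) →ₗ[ℤ] (Fin n → ℤ) := Matrix.toLin' (Nm A N)
  let R := LinearMap.range f
  let r := Module.finrank ℤ R
  let b : Module.Basis (Fin r) ℤ R := Module.finBasis ℤ R
  let e : R ≃ₗ[ℤ] (Fin r → ℤ) := b.equivFun
  let φ : (Fin n → ℤ) →ₗ[ℤ] (Fin r → ℤ) := e.toLinearMap ∘ₗ f.rangeRestrict
  let ι : (Fin r → ℤ) →ₗ[ℤ] (Fin n → ℤ) := R.subtype ∘ₗ e.symm.toLinearMap
  have hφ : Function.Surjective φ := e.surjective.comp f.surjective_rangeRestrict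
  obtain ⟨σ, hσ⟩ := Module.projective_lifting_property φ LinearMap.id hφ
  have hιφ : ι ∘ₗ φ = f := by
    apply LinearMap.ext
    intro x
    simp [ι, φ]
  have hι : Function.Injective ι := R.injective_subtype.comp e.symm.injective
  have hφι : φ ∘ₗ ι = (N : ℤ) • LinearMap.id := by
    apply LinearMap.ext
    intro y
    apply hι
    have h1 : ι (φ (ι y)) = f (ι y) := by
      rw [← hιφ]; rfl
    have h2 : ∃ x, ι y = f x := by
      have := (e.symm y).2
      obtain ⟨x, hx⟩ := this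
      exact ⟨x, hx.symm⟩
    obtain ⟨x, hx⟩ := h2
    show ι (φ (ι y)) = ι ((N : ℤ) • y)
    rw [h1, map_smul, hx]
    show (Nm A N).mulVec ((Nm A N).mulVec x) = (N : ℤ) • (Nm A N).mulVec x
    rw [Matrix.mulVec_mulVec, Nm_mul_Nm hA, Matrix.smul_mulVec]
  refine ⟨r, ⟨⟨LinearMap.toMatrix' φ, LinearMap.toMatrix' ι, LinearMap.toMatrix' σ, ?_, ?_, ?_⟩⟩⟩
  · rw [← LinearMap.toMatrix'_comp, hιφ]
    simp [f]
  · rw [← LinearMap.toMatrix'_comp, hφι, map_smul, LinearMap.toMatrix'_id]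
  · rw [← LinearMap.toMatrix'_comp, hσ]
    simp

variable {n N r : ℕ} {A : Matrix (Fin n) (Fin n) ℤ}

theorem Dat.ΦA (D : Dat n N r A) (hN : 0 < N) (hA : A ^ N = 1) : D.Φ * A = D.Φ := by
  have h1 : (N : ℤ) • (D.Φ * A) = (N : ℤ) • D.Φ := by
    calc (N : ℤ) • (D.Φ * A) = (D.Φ * D.J) * D.Φ * A := by
            rw [D.hΦJ, Matrix.smul_mul, Matrix.one_mul, Matrix.smul_mul]
      _ = D.Φ * ((D.J * D.Φ) * A) := by simp only [Matrix.mul_assoc]
      _ = D.Φ * (D.J * D.Φ) := by rw [D.hJΦ, Nm_mul hA]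
      _ = (N : ℤ) • D.Φ := by rw [← Matrix.mul_assoc, D.hΦJ, Matrix.smul_mul, Matrix.one_mul]
  have hN' : (N : ℤ) ≠ 0 := by exact_mod_cast hN.ne'
  exact smul_right_injective _ hN' h1

theorem Dat.AJ (D : Dat n N r A) (hA : A ^ N = 1) : A * D.J = D.J := by
  calc A * D.J = A * D.J * (D.Φ * D.S) := by rw [D.hΦS, Matrix.mul_one]
    _ = (A * (D.J * D.Φ)) * D.S := by simp only [Matrix.mul_assoc]
    _ = (D.J * D.Φ) * D.S := by rw [D.hJΦ, mul_Nm hA]
    _ = D.J := by rw [Matrix.mul_assoc, D.hΦS, Matrix.mul_one]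

theorem Dat.Φτ (D : Dat n N r A) (hN : 0 < N) (τ : Fin n → ℤ) (hτ : (Nm A N).mulVec τ = 0) :
    D.Φ.mulVec τ = 0 := by
  have h1 : (N : ℤ) • (D.Φ.mulVec τ) = 0 := by
    calc (N : ℤ) • (D.Φ.mulVec τ) = (D.Φ * D.J).mulVec (D.Φ.mulVec τ) := by
            rw [D.hΦJ, Matrix.smul_mulVec, Matrix.one_mulVec]
      _ = D.Φ.mulVec ((D.J * D.Φ).mulVec τ) := by
            rw [Matrix.mulVec_mulVec, Matrix.mulVec_mulVec, Matrix.mul_assoc]
      _ = 0 := by rw [D.hJΦ, hτ, Matrix.mulVec_zero]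
  have hN' : (N : ℤ) ≠ 0 := by exact_mod_cast hN.ne'
  exact (smul_eq_zero.1 h1).resolve_left hN'

/-- the kernel lattice -/
def Dat.K (D : Dat n N r A) : Submodule ℤ (Fin n → ℤ) := LinearMap.ker (Matrix.toLin' D.Φ)

theorem Dat.mem_K (D : Dat n N r A) (x : Fin n → ℤ) : x ∈ D.K ↔ D.Φ.mulVec x = 0 := by
  rw [Dat.K, LinearMap.mem_ker, Matrix.toLin'_apply]

theorem Dat.Nm_zero (D : Dat n N r A) {x : Fin n → ℤ} (hx : x ∈ D.K) : (Nm A N).mulVec x = 0 := by
  rw [D.mem_K] at hx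
  rw [← D.hJΦ, ← Matrix.mulVec_mulVec, hx, Matrix.mulVec_zero]

theorem Nm_fixed {x : Fin n → ℤ} (hx : A.mulVec x = x) : (Nm A N).mulVec x = (N : ℤ) • x := by
  have h : ∀ i, (A ^ i).mulVec x = x := by
    intro i
    induction i with
    | zero => simp
    | succ i ih => rw [pow_succ, ← Matrix.mulVec_mulVec, hx, ih]
  rw [Nm, Matrix.sum_mulVec, Finset.sum_congr rfl (fun i _ => h i)]
  simp

theorem Dat.fixed_zero (D : Dat n N r A) (hN : 0 < N) {x : Fin n → ℤ} (hx : x ∈ D.K)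
    (h : A.mulVec x = x) : x = 0 := by
  have h1 := Nm_fixed (N := N) h
  rw [D.Nm_zero hx] at h1
  have hN' : (N : ℤ) ≠ 0 := by exact_mod_cast hN.ne'
  exact (smul_eq_zero.1 h1.symm).resolve_left hN'

theorem Dat.A_mem (D : Dat n N r A) (hN : 0 < N) (hA : A ^ N = 1) {x : Fin n → ℤ}
    (hx : x ∈ D.K) : A.mulVec x ∈ D.K := by
  rw [D.mem_K] at hx ⊢
  rw [Matrix.mulVec_mulVec, D.ΦA hN hA, hx]

theorem Dat.sub_mem (D : Dat n N r A) (hN : 0 < N) (hA : A ^ N = 1) (x : Fin n → ℤ) :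
    (1 - A).mulVec x ∈ D.K := by
  rw [D.mem_K, Matrix.mulVec_mulVec, Matrix.mul_sub, D.ΦA hN hA, Matrix.mul_one, sub_self,
    Matrix.zero_mulVec]

/-- restriction of the action to the kernel lattice -/
def Dat.fK (D : Dat n N r A) (hN : 0 < N) (hA : A ^ N = 1) : D.K →ₗ[ℤ] D.K :=
  (Matrix.toLin' A).restrict (fun x hx => by
    rw [Matrix.toLin'_apply]; exact D.A_mem hN hA hx)

theorem Dat.fK_apply (D : Dat n N r A) (hN : 0 < N) (hA : A ^ N = 1) (x : D.K) :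
    ((D.fK hN hA x : D.K) : Fin n → ℤ) = A.mulVec x := rfl

theorem Dat.inj (D : Dat n N r A) (hN : 0 < N) (hA : A ^ N = 1) :
    Function.Injective (LinearMap.id - D.fK hN hA : D.K →ₗ[ℤ] D.K) := by
  rw [← LinearMap.ker_eq_bot, LinearMap.ker_eq_bot']
  intro x hx
  have h1 : (x : Fin n → ℤ) - A.mulVec x = 0 := congrArg Subtype.val hx
  apply Subtype.ext
  exact D.fixed_zero hN x.2 (sub_eq_zero.1 h1).symm

theorem Dat.fK_pow (D : Dat n N r A) (hN : 0 < N) (hA : A ^ N = 1) :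
    (D.fK hN hA) ^ N = LinearMap.id := by
  have h : ∀ i, ∀ x : D.K, (((D.fK hN hA) ^ i) x : Fin n → ℤ) = (A ^ i).mulVec x := by
    intro i
    induction i with
    | zero => intro x; simp
    | succ i ih =>
      intro x
      rw [pow_succ, Module.End.mul_apply, ih, D.fK_apply, pow_succ, Matrix.mulVec_mulVec]
  apply LinearMap.ext
  intro x
  apply Subtype.ext
  rw [h, hA]
  simp

/-- the sub-lattice of images of the kernel lattice -/
def Dat.JJ (D : Dat n N r A) : AddSubgroup (Fin n → ℤ) :=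
  D.K.toAddSubgroup.map (Matrix.toLin' (1 - A)).toAddMonoidHom

/-- the sub-lattice of images -/
def Dat.II (_ : Dat n N r A) : AddSubgroup (Fin n → ℤ) :=
  (Matrix.toLin' (1 - A)).toAddMonoidHom.range

theorem Dat.JJ_le_II (D : Dat n N r A) : D.JJ ≤ D.II := by
  rintro _ ⟨x, _, rfl⟩
  exact ⟨x, rfl⟩

theorem Dat.II_le_K (D : Dat n N r A) (hN : 0 < N) (hA : A ^ N = 1) :
    D.II ≤ D.K.toAddSubgroup := by
  rintro _ ⟨x, rfl⟩
  exact D.sub_mem hN hA x

theorem Dat.relIndex_JJ_K (D : Dat n N r A) (hN : 0 < N) (hA : A ^ N = 1) :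
    D.JJ.relIndex D.K.toAddSubgroup =
      (LinearMap.det (LinearMap.id - D.fK hN hA : D.K →ₗ[ℤ] D.K)).natAbs := by
  let h : D.K →ₗ[ℤ] D.K := LinearMap.id - D.fK hN hA
  let e : D.K ≃ₗ[ℤ] LinearMap.range h := LinearEquiv.ofInjective h (D.inj hN hA)
  have h1 := Submodule.natAbs_det_equiv (LinearMap.range h) e
  have h2 : ((LinearMap.range h).subtype ∘ₗ AddMonoidHom.toIntLinearMap (e : D.K →+ LinearMap.range h))
      = h := by
    apply LinearMap.ext
    intro x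
    rfl
  rw [h2] at h1
  show D.JJ.relIndex D.K.toAddSubgroup = (LinearMap.det h).natAbs
  rw [h1, AddSubgroup.relIndex, AddSubgroup.index]
  apply Nat.card_congr
  have h3 : D.JJ.addSubgroupOf D.K.toAddSubgroup = (LinearMap.range h).toAddSubgroup := by
    ext x
    rw [AddSubgroup.mem_addSubgroupOf]
    constructor
    · rintro ⟨y, hy, hyx⟩
      refine ⟨⟨y, hy⟩, ?_⟩
      apply Subtype.ext
      show y - A.mulVec y = x
      rw [← hyx]
      show y - A.mulVec y = (1 - A).mulVec y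
      rw [Matrix.sub_mulVec, Matrix.one_mulVec]
    · rintro ⟨y, hy⟩
      refine ⟨y.1, y.2, ?_⟩
      rw [← hy]
      show (1 - A).mulVec (y : Fin n → ℤ) = (y : Fin n → ℤ) - A.mulVec y
      rw [Matrix.sub_mulVec, Matrix.one_mulVec]
  rw [h3]
  rfl

/-- nonnegativity of the determinant for finite order maps -/
theorem det_nonneg {k : ℕ} (M : Matrix (Fin k) (Fin k) ℤ) (hN : 0 < N) (hM : M ^ N = 1) :
    0 ≤ (1 - M).det := by
  by_contra hcon
  push Not at hcon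
  set MR : Matrix (Fin k) (Fin k) ℝ := M.map (Int.castRingHom ℝ) with hMR
  have hMRN : MR ^ N = 1 := by
    have : MR ^ N = (M ^ N).map (Int.castRingHom ℝ) := by
      rw [hMR, ← RingHom.mapMatrix_apply, ← RingHom.mapMatrix_apply, map_pow]
    rw [this, hM]
    simp
  let F : ℝ → ℝ := fun t => (1 - t • MR).det
  have hF : Continuous F := by
    apply Continuous.matrix_det
    fun_prop
  have h0 : F 0 = 1 := by simp [F]
  have h1 : F 1 < 0 := by
    have : F 1 = (((1 - M).det : ℤ) : ℝ) := by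
      simp only [F, one_smul]
      have : (1 : Matrix (Fin k) (Fin k) ℝ) - MR = (1 - M).map (Int.castRingHom ℝ) := by
        rw [hMR, ← RingHom.mapMatrix_apply, ← RingHom.mapMatrix_apply, map_sub, map_one]
      rw [this, ← RingHom.mapMatrix_apply, ← RingHom.map_det]
      simp
    rw [this]
    exact_mod_cast hcon
  have hiv := intermediate_value_Icc' (f := F) (zero_le_one) hF.continuousOn
  have hmem : (0 : ℝ) ∈ Set.Icc (F 1) (F 0) := ⟨h1.le, by rw [h0]; exact zero_le_one⟩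
  obtain ⟨t, ht, hFt⟩ := hiv hmem
  have ht1 : t ≠ 1 := by
    intro h
    rw [h] at hFt
    rw [hFt] at h1
    exact lt_irrefl _ h1
  obtain ⟨v, hv, hv0⟩ := Matrix.exists_mulVec_eq_zero_iff.2 hFt
  have hv1 : t • MR.mulVec v = v := by
    rw [Matrix.sub_mulVec, Matrix.one_mulVec, Matrix.smul_mulVec, sub_eq_zero] at hv0
    exact hv0.symm
  have hpow : ∀ i : ℕ, t ^ i • (MR ^ i).mulVec v = v := by
    intro i
    induction i with
    | zero => simp
    | succ i ih =>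
      rw [pow_succ, pow_succ, ← Matrix.mulVec_mulVec, mul_smul, ← Matrix.mulVec_smul, hv1, ih]
  have h2 := hpow N
  rw [hMRN, Matrix.one_mulVec] at h2
  have h3 : (t ^ N - 1) • v = 0 := by rw [sub_smul, h2, one_smul, sub_self]
  rcases smul_eq_zero.1 h3 with h4 | h4
  · have h5 : t ^ N < 1 := pow_lt_one₀ ht.1 (lt_of_le_of_ne ht.2 ht1) hN.ne'
    linarith
  · exact hv h4

end Pool.Agent.H160R3.Alg
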