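import Pool.Agent.H160R3.Alg

set_option autoImplicit false

namespace Pool.Agent.H160R3.Alg

open Matrix Finset Polynomial

variable {n N r : ℕ} {A : Matrix (Fin n) (Fin n) ℤ}

/-- splitting of the lattice -/
def Dat.e (D : Dat n N r A) : (D.K × (Fin r → ℤ)) ≃ₗ[ℤ] (Fin n → ℤ) where
  toFun p := (p.1 : Fin n → ℤ) + D.S.mulVec p.2
  map_add' p q := by
    simp only [Prod.fst_add, Prod.snd_add, Matrix.mulVec_add, Submodule.coe_add]
    abel
  map_smul' c p := by
    simp only [Prod.smul_fst, Prod.smul_snd, Matrix.mulVec_smul, Submodule.coe_smul, smul_add,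
      RingHom.id_apply]
  invFun x := (⟨x - D.S.mulVec (D.Φ.mulVec x), by
    rw [D.mem_K, Matrix.mulVec_sub, Matrix.mulVec_mulVec, D.hΦS, Matrix.one_mulVec, sub_self]⟩,
    D.Φ.mulVec x)
  left_inv p := by
    have h : D.Φ.mulVec ((p.1 : Fin n → ℤ) + D.S.mulVec p.2) = p.2 := by
      rw [Matrix.mulVec_add, (D.mem_K _).1 p.1.2, zero_add, Matrix.mulVec_mulVec, D.hΦS,
        Matrix.one_mulVec]
    apply Prod.ext
    · apply Subtype.ext
      show (p.1 : Fin n → ℤ) + D.S.mulVec p.2 -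
        D.S.mulVec (D.Φ.mulVec ((p.1 : Fin n → ℤ) + D.S.mulVec p.2)) = p.1
      rw [h]; abel
    · exact h
  right_inv x := by
    show x - D.S.mulVec (D.Φ.mulVec x) + D.S.mulVec (D.Φ.mulVec x) = x
    abel

theorem Dat.charpoly_eq (D : Dat n N r A) (hN : 0 < N) (hA : A ^ N = 1) :
    ∃ (k : ℕ) (M : Matrix (Fin k) (Fin k) ℤ), A.charpoly = M.charpoly * (X - C 1) ^ r ∧
      M ^ N = 1 ∧ (1 - M).det = LinearMap.det (LinearMap.id - D.fK hN hA : D.K →ₗ[ℤ] D.K) ∧
      (1 - M).det ≠ 0 := by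
  let k := Module.finrank ℤ D.K
  let bK : Module.Basis (Fin k) ℤ D.K := Module.finBasis ℤ D.K
  let M := LinearMap.toMatrix bK bK (D.fK hN hA)
  have hdet : (1 - M).det = LinearMap.det (LinearMap.id - D.fK hN hA : D.K →ₗ[ℤ] D.K) := by
    rw [← LinearMap.det_toMatrix bK, map_sub, LinearMap.toMatrix_id]
  refine ⟨k, M, ?_, ?_, hdet, ?_⟩
  · let B : Module.Basis (Fin k ⊕ Fin r) ℤ (Fin n → ℤ) :=
      (bK.prod (Pi.basisFun ℤ (Fin r))).map D.e
    have hB : ∀ x, B.repr x = (bK.prod (Pi.basisFun ℤ (Fin r))).repr (D.e.symm x) := fun x => rfl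
    have hBl : ∀ j, B (Sum.inl j) = (bK j : Fin n → ℤ) := by
      intro j
      show D.e ((bK.prod (Pi.basisFun ℤ (Fin r))) (Sum.inl j)) = _
      rw [Module.Basis.prod_apply]
      show ((bK j : Fin n → ℤ)) + D.S.mulVec 0 = _
      rw [Matrix.mulVec_zero, add_zero]
    have hBr : ∀ j, B (Sum.inr j) = D.S.mulVec (Pi.single j 1) := by
      intro j
      show D.e ((bK.prod (Pi.basisFun ℤ (Fin r))) (Sum.inr j)) = _
      rw [Module.Basis.prod_apply]
      show ((0 : D.K) : Fin n → ℤ) + D.S.mulVec (Pi.basisFun ℤ (Fin r) j) = _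
      rw [Pi.basisFun_apply]
      simp
    have hF : LinearMap.toMatrix B B (Matrix.toLin' A) = Matrix.fromBlocks M
        (LinearMap.toMatrix B B (Matrix.toLin' A)).toBlocks₁₂ 0 1 := by
      rw [← Matrix.fromBlocks_toBlocks (LinearMap.toMatrix B B (Matrix.toLin' A))]
      congr 1
      · ext i j
        show (LinearMap.toMatrix B B (Matrix.toLin' A)) (Sum.inl i) (Sum.inl j) =
          (LinearMap.toMatrix bK bK (D.fK hN hA)) i j
        rw [LinearMap.toMatrix_apply, hB, hBl, Module.Basis.prod_repr_inl, LinearMap.toMatrix_apply]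
        congr 2
        apply Subtype.ext
        show A.mulVec (bK j) - D.S.mulVec (D.Φ.mulVec (A.mulVec (bK j))) = A.mulVec (bK j)
        rw [(D.mem_K _).1 (D.A_mem hN hA (bK j).2), Matrix.mulVec_zero, sub_zero]
      · ext i j
        show (LinearMap.toMatrix B B (Matrix.toLin' A)) (Sum.inr i) (Sum.inl j) = _
        rw [LinearMap.toMatrix_apply, hB, hBl, Module.Basis.prod_repr_inr]
        show (D.Φ.mulVec (A.mulVec (bK j))) i = _
        rw [(D.mem_K _).1 (D.A_mem hN hA (bK j).2)]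
        rfl
      · ext i j
        show (LinearMap.toMatrix B B (Matrix.toLin' A)) (Sum.inr i) (Sum.inr j) = _
        rw [LinearMap.toMatrix_apply, hB, hBr, Module.Basis.prod_repr_inr]
        show (D.Φ.mulVec (A.mulVec (D.S.mulVec (Pi.single j 1)))) i = _
        rw [Matrix.mulVec_mulVec, Matrix.mulVec_mulVec, D.ΦA hN hA, D.hΦS, Matrix.one_mulVec,
          Pi.single_apply, Matrix.one_apply]
    have h1 : A.charpoly = (LinearMap.toMatrix B B (Matrix.toLin' A)).charpoly := by
      rw [LinearMap.charpoly_toMatrix, Matrix.charpoly_toLin']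
    rw [h1, hF, Matrix.charpoly_fromBlocks_zero₂₁, Matrix.charpoly_one]
    simp
  · have h1 : M = LinearMap.toMatrixAlgEquiv bK (D.fK hN hA) := rfl
    rw [h1, ← map_pow, D.fK_pow hN hA]
    exact map_one _
  · rw [hdet]
    intro h0
    rw [← hdet] at h0
    obtain ⟨v, hv, hv0⟩ := Matrix.exists_mulVec_eq_zero_iff.2 h0
    apply hv
    have h2 : (LinearMap.id - D.fK hN hA : D.K →ₗ[ℤ] D.K) (bK.equivFun.symm v) = 0 := by
      have h3 : LinearMap.toMatrix bK bK (LinearMap.id - D.fK hN hA : D.K →ₗ[ℤ] D.K) = 1 - M := by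
        rw [map_sub, LinearMap.toMatrix_id]
      apply bK.equivFun.injective
      rw [map_zero, ← hv0, ← h3]
      funext i
      have := LinearMap.toMatrix_mulVec_repr bK bK (LinearMap.id - D.fK hN hA : D.K →ₗ[ℤ] D.K)
        (bK.equivFun.symm v)
      have h4 : (bK.repr (bK.equivFun.symm v) : Fin k → ℤ) = v := bK.equivFun.apply_symm_apply v
      rw [h4] at this
      rw [this]
      rfl
    have h5 := D.inj hN hA (h2.trans (map_zero _).symm)
    have h6 := congrArg bK.equivFun h5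
    rwa [LinearEquiv.apply_symm_apply, map_zero] at h6

/-- the value D of the problem is the index -/
theorem Dat.D_eq (D : Dat n N r A) (hN : 0 < N) (hA : A ^ N = 1) :
    Polynomial.eval 1 (Polynomial.divByMonic A.charpoly
      ((Polynomial.X - Polynomial.C (1 : ℤ)) ^ (A.charpoly.rootMultiplicity 1))) =
      (D.JJ.relIndex D.K.toAddSubgroup : ℤ) ∧ D.JJ.relIndex D.K.toAddSubgroup ≠ 0 := by
  obtain ⟨k, M, h1, h2, h3, h4⟩ := D.charpoly_eq hN hA
  have h5 : M.charpoly.eval 1 = (1 - M).det := by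
    rw [Matrix.eval_charpoly]
    simp
  have h6 : A.charpoly.rootMultiplicity 1 = r := by
    rw [h1, Polynomial.rootMultiplicity_mul_X_sub_C_pow (M.charpoly_monic.ne_zero),
      Polynomial.rootMultiplicity_eq_zero, zero_add]
    rw [Polynomial.IsRoot, h5]
    exact h4
  rw [h6, h1, mul_comm, Polynomial.mul_divByMonic_cancel_left _ ((monic_X_sub_C 1).pow r), h5,
    D.relIndex_JJ_K hN hA, ← h3]
  refine ⟨?_, ?_⟩
  · rw [Int.natAbs_of_nonneg (det_nonneg M hN h2)]
  · rw [Int.natAbs_ne_zero]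
    exact h4

end Pool.Agent.H160R3.Alg
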