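import Pool.Agent.H160R3.Ser

set_option autoImplicit false
open scoped Pointwise

namespace Pool.Agent.H160R3.B3

open PowerSeries Pool.Agent.H160R3

/-- the six vertices -/
def v6 : Fin 6 → (Fin 4 → ℤ) :=
  ![![0,1,0,0], ![0,1,1,0], ![1,0,0,0], ![1,0,0,1], ![1,1,0,0], ![1,1,1,1]]

/-- the inequalities -/
def Ineq (x : Fin 4 → ℤ) (m : ℕ) : Prop :=
  x 0 ≤ m ∧ x 1 ≤ m ∧ m ≤ x 0 + x 1 ∧ 0 ≤ x 2 ∧ 0 ≤ x 3 ∧ x 2 ≤ x 1 ∧ x 3 ≤ x 0 ∧
    x 2 + x 0 ≤ m + x 3 ∧ x 3 + x 1 ≤ m + x 2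

/-- the polytope -/
def P6 : Set (Fin 4 → ℝ) := convexHull ℝ (Set.range fun i : Fin 6 => fun j => ((v6 i j : ℤ) : ℝ))

theorem mem_iff (x : Fin 4 → ℤ) (m : ℕ) :
    (fun j => ((x j : ℤ) : ℝ)) ∈ (m : ℝ) • P6 ↔ Ineq x m := by
  constructor
  · intro h
    obtain ⟨c, hc, hs, hx⟩ := exists_of_mem_smul_hull _ _ (Nat.cast_nonneg m) _ h
    have h0 := congrFun hx 0
    have h1 := congrFun hx 1
    have h2 := congrFun hx 2
    have h3 := congrFun hx 3
    simp [Fin.sum_univ_six, v6] at h0 h1 h2 h3 hs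
    have c0 := hc 0
    have c1 := hc 1
    have c2 := hc 2
    have c3 := hc 3
    have c4 := hc 4
    have c5 := hc 5
    refine ⟨?_, ?_, ?_, ?_, ?_, ?_, ?_, ?_, ?_⟩
    all_goals
      rw [← @Int.cast_le ℝ]
      push_cast
      linarith
  · rintro ⟨h0, h1, h2, h3, h4, h5, h6, h7, h8⟩
    set t : ℤ := max 0 (max (x 2 - (m - x 0)) (x 3 - (m - x 1))) with ht
    have t0 : 0 ≤ t := le_max_left _ _
    have t1 : x 2 - (m - x 0) ≤ t := le_trans (le_max_left _ _) (le_max_right _ _)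
    have t2 : x 3 - (m - x 1) ≤ t := le_trans (le_max_right _ _) (le_max_right _ _)
    have t3 : t ≤ x 2 := max_le h3 (max_le (by omega) (by omega))
    have t4 : t ≤ x 3 := max_le h4 (max_le (by omega) (by omega))
    have t5 : t ≤ x 0 + x 1 - m := max_le (by omega) (max_le (by omega) (by omega))
    clear_value t
    have key := mem_smul_hull (fun i : Fin 6 => fun j : Fin 4 => ((v6 i j : ℤ) : ℝ))
      (fun i => ((![m - x 0 - x 2 + t, x 2 - t, m - x 1 - x 3 + t, x 3 - t,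
        x 0 + x 1 - m - t, t] i : ℤ) : ℝ)) (by
          intro i
          rw [Int.cast_nonneg_iff]
          fin_cases i <;> simp <;> omega) (m : ℝ) (by
          simp [Fin.sum_univ_six]; ring)
    have e : (fun j => ((x j : ℤ) : ℝ)) = ∑ i, ((![m - x 0 - x 2 + t, x 2 - t, m - x 1 - x 3 + t, x 3 - t,
        x 0 + x 1 - m - t, t] i : ℤ) : ℝ) • (fun j : Fin 4 => ((v6 i j : ℤ) : ℝ)) := by
      funext j
      fin_cases j <;> simp [Fin.sum_univ_six, v6] <;> ring
    rw [e]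
    exact key

/-- lattice points of the cone -/
def T : Type := {p : (Fin 4 → ℤ) × ℕ // Ineq p.1 p.2}

def hT (p : T) : ℕ := p.1.2

abbrev N5 : Type := ℕ × ℕ × ℕ × ℕ × ℕ

def h5 (p : N5) : ℕ := p.1 + (p.2.1 + (p.2.2.1 + (p.2.2.2.1 + p.2.2.2.2)))

theorem FF_h5 : FF h5 :=
  FF_prod FF_id (FF_prod FF_id (FF_prod FF_id (FF_prod FF_id FF_id)))

theorem ser_h5 : ser h5 * (1 - X) ^ 5 = 1 := by
  have e : ser h5 = ser (fun n : ℕ => n) * (ser (fun n : ℕ => n) * (ser (fun n : ℕ => n) *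
      (ser (fun n : ℕ => n) * ser (fun n : ℕ => n)))) := by
    rw [← ser_prod FF_id FF_id, ← ser_prod FF_id (FF_prod FF_id FF_id),
      ← ser_prod FF_id (FF_prod FF_id (FF_prod FF_id FF_id)),
      ← ser_prod FF_id (FF_prod FF_id (FF_prod FF_id (FF_prod FF_id FF_id)))]
    rfl
  rw [e]
  have := ser_id
  calc _ = (ser (fun n : ℕ => n) * (1 - X)) ^ 5 := by ring
    _ = 1 := by rw [this, one_pow]

/-- the decomposition map -/
def dec : N5 ⊕ (N5 ⊕ N5) → (Fin 4 → ℤ) × ℕ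
  | Sum.inl (a, b, c, d, e) =>
    -- l1 l2 l3 m1 m2
    (![b + e + c, a + d + c, d, e], a + (b + (c + (d + e))))
  | Sum.inr (Sum.inl (n, b, c, d, e)) =>
    (![b + e + c + n + 1, d + c + n + 1, d + n + 1, e + n + 1], n + (b + (c + (d + e))) + 1)
  | Sum.inr (Sum.inr (n, l, c, d, e)) =>
    (![e + c + n + 1, l + 1 + d + c + n + 1, d + n + 1, e + n + 1],
      n + (l + (c + (d + e))) + 2)

theorem dec_mem (p : N5 ⊕ (N5 ⊕ N5)) : Ineq (dec p).1 (dec p).2 := by
  rcases p with ⟨a, b, c, d, e⟩ | ⟨a, b, c, d, e⟩ | ⟨a, b, c, d, e⟩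
  all_goals
    simp [dec, Ineq]
    omega

def decT (p : N5 ⊕ (N5 ⊕ N5)) : T := ⟨dec p, dec_mem p⟩

theorem dec_inj : Function.Injective dec := by
  intro p q h
  have h2 := congrArg Prod.snd h
  have h1 := congrArg Prod.fst h
  have e0 := congrFun h1 0
  have e1 := congrFun h1 1
  have e2 := congrFun h1 2
  have e3 := congrFun h1 3
  rcases p with ⟨a, b, c, d, e⟩ | ⟨a, b, c, d, e⟩ | ⟨a, b, c, d, e⟩ <;>
  rcases q with ⟨a', b', c', d', e'⟩ | ⟨a', b', c', d', e'⟩ | ⟨a', b', c', d', e'⟩ <;>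
  simp [dec] at h2 e0 e1 e2 e3 ⊢ <;> omega

theorem decT_bij : Function.Bijective decT := by
  constructor
  · intro p q h
    exact dec_inj (congrArg Subtype.val h)
  · rintro ⟨⟨x, m⟩, h⟩
    have hx : x = ![x 0, x 1, x 2, x 3] := by
      funext j; fin_cases j <;> rfl
    obtain ⟨h0, h1, h2, h3, h4, h5', h6, h7, h8⟩ := h
    generalize hx0 : x 0 = a at *
    generalize hx1 : x 1 = b at *
    generalize hx2 : x 2 = c at *
    generalize hx3 : x 3 = d at *
    simp only at h0 h1 h2 h3 h4 h5' h6 h7 h8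
    by_cases hA : c ≤ m - a ∧ d ≤ m - b
    · refine ⟨Sum.inl ((m - a - c).toNat, (m - b - d).toNat, (a + b - m).toNat, c.toNat, d.toNat), ?_⟩
      apply Subtype.ext
      apply Prod.ext
      · rw [decT]
        show ![_, _, _, _] = x
        rw [hx]
        funext j
        fin_cases j <;> simp <;> omega
      · show _ = m
        simp [decT, dec]
        omega
    · by_cases hB : d - (m - b) ≤ c - (m - a)
      · -- t = c - (m - a), lambda1 = 0
        refine ⟨Sum.inr (Sum.inl ((c - (m - a) - 1).toNat, (m - b - d + (c - (m - a))).toNat,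
          (a + b - m - (c - (m - a))).toNat, (m - a).toNat, (d - (c - (m - a))).toNat)), ?_⟩
        apply Subtype.ext
        apply Prod.ext
        · rw [decT]
          show ![_, _, _, _] = x
          rw [hx]
          funext j
          fin_cases j <;> simp <;> omega
        · show _ = m
          simp [decT, dec]
          omega
      · refine ⟨Sum.inr (Sum.inr ((d - (m - b) - 1).toNat, (m - a - c + (d - (m - b)) - 1).toNat,
          (a + b - m - (d - (m - b))).toNat, (c - (d - (m - b))).toNat, (m - b).toNat)), ?_⟩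
        apply Subtype.ext
        apply Prod.ext
        · rw [decT]
          show ![_, _, _, _] = x
          rw [hx]
          funext j
          fin_cases j <;> simp <;> omega
        · show _ = m
          simp [decT, dec]
          omega

theorem ser_T : ser hT * (1 - X) ^ 5 = 1 + X + X ^ 2 := by
  have e1 : ser hT = ser (Sum.elim h5 (Sum.elim (fun a => h5 a + 1) (fun a => h5 a + 2))) := by
    symm
    apply ser_congr _ _ (Equiv.ofBijective decT decT_bij)
    rintro (⟨a, b, c, d, e⟩ | ⟨a, b, c, d, e⟩ | ⟨a, b, c, d, e⟩) <;> rfl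
  rw [e1, ser_sum FF_h5 (FF_sum (FF_shift 1 FF_h5) (FF_shift 2 FF_h5)),
    ser_sum (FF_shift 1 FF_h5) (FF_shift 2 FF_h5), ser_shift, ser_shift]
  have := ser_h5
  linear_combination (1 + X + X ^ 2 : PowerSeries ℤ) * this

/-! the fixed points -/

/-- the involution -/
def gm : Matrix (Fin 4) (Fin 4) ℤ := !![1,0,0,0;0,1,0,0;0,1,-1,0;1,0,0,-1]

def Tg : Type := {p : (Fin 4 → ℤ) × ℕ // Ineq p.1 p.2 ∧ Matrix.mulVec gm p.1 = p.1}

def hTg (p : Tg) : ℕ := p.1.2

abbrev N3 : Type := ℕ × ℕ × ℕ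

def h3 (p : N3) : ℕ := 2 * p.1 + (2 * p.2.1 + 2 * p.2.2)

theorem FF_h3 : FF h3 :=
  FF_prod (FF_mul two_pos) (FF_prod (FF_mul two_pos) (FF_mul two_pos))

theorem ser_h3 : ser h3 * (1 - X ^ 2) ^ 3 = 1 := by
  have e : ser h3 = ser (fun n : ℕ => 2 * n) * (ser (fun n : ℕ => 2 * n) *
      (ser (fun n : ℕ => 2 * n))) := by
    rw [← ser_prod (FF_mul two_pos) (FF_mul two_pos),
      ← ser_prod (FF_mul two_pos) (FF_prod (FF_mul two_pos) (FF_mul two_pos))]
    rfl
  rw [e]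
  have := ser_mul two_pos
  calc _ = (ser (fun n : ℕ => 2 * n) * (1 - X ^ 2)) ^ 3 := by ring
    _ = 1 := by rw [this, one_pow]

theorem gm_mulVec (x : Fin 4 → ℤ) :
    Matrix.mulVec gm x = ![x 0, x 1, x 1 - x 2, x 0 - x 3] := by
  funext j
  fin_cases j <;> simp [gm, Matrix.mulVec, dotProduct, Fin.sum_univ_four] <;> ring

theorem gm_fix (x : Fin 4 → ℤ) :
    Matrix.mulVec gm x = x ↔ x 1 = 2 * x 2 ∧ x 0 = 2 * x 3 := by
  rw [gm_mulVec]
  constructor
  · intro h
    have h2 := congrFun h 2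
    have h3 := congrFun h 3
    simp at h2 h3
    omega
  · rintro ⟨h1, h2⟩
    funext j
    fin_cases j <;> simp <;> omega

def dg : N3 ⊕ N3 → (Fin 4 → ℤ) × ℕ
  | Sum.inl (a, b, c) => (![2 * (b + c), 2 * (a + c), a + c, b + c], 2 * a + (2 * b + 2 * c))
  | Sum.inr (a, b, c) => (![2 * (b + c + 1), 2 * (a + c + 1), a + c + 1, b + c + 1],
      2 * a + (2 * b + 2 * c) + 3)

theorem dg_mem (p : N3 ⊕ N3) : Ineq (dg p).1 (dg p).2 ∧ Matrix.mulVec gm (dg p).1 = (dg p).1 := by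
  rw [gm_fix]
  rcases p with ⟨a, b, c⟩ | ⟨a, b, c⟩
  all_goals
    simp [dg, Ineq]
    omega

def dgT (p : N3 ⊕ N3) : Tg := ⟨dg p, dg_mem p⟩

theorem dgT_bij : Function.Bijective dgT := by
  constructor
  · intro p q h
    have h := congrArg Subtype.val h
    have h2 := congrArg Prod.snd h
    have h1 := congrArg Prod.fst h
    have e2 := congrFun h1 2
    have e3 := congrFun h1 3
    rcases p with ⟨a, b, c⟩ | ⟨a, b, c⟩ <;>
    rcases q with ⟨a', b', c'⟩ | ⟨a', b', c'⟩ <;>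
    simp [dgT, dg] at h2 e2 e3 ⊢ <;> omega
  · rintro ⟨⟨x, m⟩, h, hg⟩
    rw [gm_fix] at hg
    have hx : x = ![x 0, x 1, x 2, x 3] := by
      funext j; fin_cases j <;> rfl
    obtain ⟨h0, h1, h2, h3, h4, h5', h6, h7, h8⟩ := h
    obtain ⟨g1, g2⟩ := hg
    generalize hx0 : x 0 = a at *
    generalize hx1 : x 1 = b at *
    generalize hx2 : x 2 = c at *
    generalize hx3 : x 3 = d at *
    simp only at h0 h1 h2 h3 h4 h5' h6 h7 h8 g1 g2
    -- s1 = m - a, s2 = m - b, s3 = a + b - m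
    by_cases hp : m % 2 = 0
    · refine ⟨Sum.inl (((m - a) / 2).toNat, ((m - b) / 2).toNat, ((a + b - m) / 2).toNat), ?_⟩
      apply Subtype.ext
      apply Prod.ext
      · show ![_, _, _, _] = x
        rw [hx]
        funext j
        fin_cases j <;> simp <;> omega
      · show _ = m
        simp [dgT, dg]
        omega
    · refine ⟨Sum.inr (((m - a) / 2).toNat, ((m - b) / 2).toNat, ((a + b - m) / 2).toNat), ?_⟩
      apply Subtype.ext
      apply Prod.ext
      · show ![_, _, _, _] = x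
        rw [hx]
        funext j
        fin_cases j <;> simp <;> omega
      · show _ = m
        simp [dgT, dg]
        omega

theorem ser_Tg : ser hTg * (1 - X ^ 2) ^ 3 = 1 + X ^ 3 := by
  have e1 : ser hTg = ser (Sum.elim h3 (fun a => h3 a + 3)) := by
    symm
    apply ser_congr _ _ (Equiv.ofBijective dgT dgT_bij)
    rintro (⟨a, b, c⟩ | ⟨a, b, c⟩) <;> rfl
  rw [e1, ser_sum FF_h3 (FF_shift 3 FF_h3), ser_shift]
  have := ser_h3
  linear_combination (1 + X ^ 3 : PowerSeries ℤ) * this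

end Pool.Agent.H160R3.B3
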