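import Pool.Agent.H160R3.Alg2

set_option autoImplicit false
open scoped Pointwise

namespace Pool.Agent.H160R3.Geo

open Matrix Finset Pool.Agent.H160R3.Alg

/-- real cast of an integer vector -/
def cv {n : ℕ} (z : Fin n → ℤ) : Fin n → ℝ := fun i => (z i : ℝ)

/-- real cast of an integer matrix -/
def cm {m n : ℕ} (M : Matrix (Fin m) (Fin n) ℤ) : Matrix (Fin m) (Fin n) ℝ :=
  M.map (Int.cast : ℤ → ℝ)

theorem cv_inj {n : ℕ} {a b : Fin n → ℤ} (h : cv a = cv b) : a = b := by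
  funext i
  have h1 : (a i : ℝ) = (b i : ℝ) := congrFun h i
  exact_mod_cast h1

@[simp] theorem cv_add {n : ℕ} (a b : Fin n → ℤ) : cv (a + b) = cv a + cv b := by
  funext i; simp [cv]

@[simp] theorem cv_sub {n : ℕ} (a b : Fin n → ℤ) : cv (a - b) = cv a - cv b := by
  funext i; simp [cv]

@[simp] theorem cv_zero {n : ℕ} : cv (0 : Fin n → ℤ) = 0 := by
  funext i; simp [cv]

theorem cv_zsmul {n : ℕ} (k : ℤ) (a : Fin n → ℤ) : cv (k • a) = (k : ℝ) • cv a := by
  funext i; simp [cv]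

theorem cv_nsmul {n : ℕ} (k : ℕ) (a : Fin n → ℤ) : cv (k • a) = (k : ℝ) • cv a := by
  funext i; simp [cv]

theorem cm_mulVec {m n : ℕ} (M : Matrix (Fin m) (Fin n) ℤ) (v : Fin n → ℤ) :
    (cm M).mulVec (cv v) = cv (M.mulVec v) := by
  funext i
  simp [cm, cv, Matrix.mulVec, dotProduct]

theorem cm_mul {l m n : ℕ} (M : Matrix (Fin l) (Fin m) ℤ) (M' : Matrix (Fin m) (Fin n) ℤ) :
    cm (M * M') = cm M * cm M' := by
  ext i j
  simp [cm, Matrix.mul_apply]

theorem cm_one {n : ℕ} : cm (1 : Matrix (Fin n) (Fin n) ℤ) = 1 := by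
  ext i j
  simp [cm, Matrix.one_apply]

theorem cm_add {m n : ℕ} (M M' : Matrix (Fin m) (Fin n) ℤ) : cm (M + M') = cm M + cm M' := by
  ext i j
  simp [cm]

theorem cm_smul {m n : ℕ} (k : ℤ) (M : Matrix (Fin m) (Fin n) ℤ) :
    cm (k • M) = (k : ℝ) • cm M := by
  ext i j
  simp [cm]

theorem cm_pow {n : ℕ} (M : Matrix (Fin n) (Fin n) ℤ) (i : ℕ) : cm (M ^ i) = cm M ^ i := by
  induction i with
  | zero => simp [cm_one]
  | succ i ih => rw [pow_succ, cm_mul, ih, pow_succ]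

/-- the data of an affine map of finite order -/
structure Aff (n : ℕ) where
  A : Matrix (Fin n) (Fin n) ℤ
  τ : Fin n → ℤ
  N : ℕ
  hN : 0 < N
  hA : A ^ N = 1
  hτ : (Nm A N).mulVec τ = 0

variable {n : ℕ} (F : Aff n)

/-- the real affine map -/
def Aff.T (x : Fin n → ℝ) : Fin n → ℝ := (cm F.A).mulVec x + cv F.τ

/-- partial sums -/
def Aff.s {n : ℕ} (F : Aff n) : ℕ → (Fin n → ℤ)
  | 0 => 0
  | (i + 1) => F.A.mulVec (Aff.s F i) + F.τ

theorem Aff.s_eq (i : ℕ) : F.s i = (∑ j ∈ range i, F.A ^ j).mulVec F.τ := by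
  induction i with
  | zero => simp [Aff.s]
  | succ i ih =>
    rw [Aff.s, ih, Matrix.mulVec_mulVec, Finset.sum_range_succ', pow_zero, Matrix.add_mulVec,
      Matrix.one_mulVec, Finset.mul_sum]
    congr 2
    apply Finset.sum_congr rfl
    intro j _
    rw [pow_succ']

theorem Aff.s_N : F.s F.N = 0 := by
  rw [F.s_eq]; exact F.hτ

/-- the orbit -/
def Aff.orb (i : ℕ) (x : Fin n → ℝ) : Fin n → ℝ := (cm F.A ^ i).mulVec x + cv (F.s i)

theorem Aff.orb_zero (x : Fin n → ℝ) : F.orb 0 x = x := by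
  simp [Aff.orb, Aff.s]

theorem Aff.orb_succ (i : ℕ) (x : Fin n → ℝ) : F.orb (i + 1) x = F.T (F.orb i x) := by
  rw [Aff.orb, Aff.T, Aff.orb, Aff.s, cv_add, ← cm_mulVec, Matrix.mulVec_add, Matrix.mulVec_mulVec,
    pow_succ', add_assoc]

theorem Aff.orb_N (x : Fin n → ℝ) : F.orb F.N x = x := by
  rw [Aff.orb, F.s_N, ← cm_pow, F.hA, cm_one, Matrix.one_mulVec, cv_zero, add_zero]

theorem Aff.orb_fixed {x : Fin n → ℝ} (hx : F.T x = x) (i : ℕ) : F.orb i x = x := by
  induction i with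
  | zero => exact F.orb_zero x
  | succ i ih => rw [F.orb_succ, ih, hx]

/-- averaging -/
noncomputable def Aff.avg (x : Fin n → ℝ) : Fin n → ℝ := (F.N : ℝ)⁻¹ • ∑ i ∈ range F.N, F.orb i x

theorem Aff.avg_fixed {x : Fin n → ℝ} (hx : F.T x = x) : F.avg x = x := by
  have hN : (F.N : ℝ) ≠ 0 := by exact_mod_cast F.hN.ne'
  rw [Aff.avg, Finset.sum_congr rfl (fun i _ => F.orb_fixed hx i), Finset.sum_const, card_range,
    ← Nat.cast_smul_eq_nsmul ℝ, smul_smul, inv_mul_cancel₀ hN, one_smul]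

theorem Aff.T_avg (x : Fin n → ℝ) : F.T (F.avg x) = F.avg x := by
  have hN : (F.N : ℝ) ≠ 0 := by exact_mod_cast F.hN.ne'
  have h1 : F.T (F.avg x) = (F.N : ℝ)⁻¹ • ∑ i ∈ range F.N, F.orb (i + 1) x := by
    rw [Finset.sum_congr rfl (fun i _ => F.orb_succ i x)]
    rw [Aff.T, Aff.avg, Matrix.mulVec_smul, Matrix.mulVec_sum]
    simp only [Aff.T, Finset.sum_add_distrib, Finset.sum_const, card_range, smul_add]
    rw [← Nat.cast_smul_eq_nsmul ℝ, smul_smul, inv_mul_cancel₀ hN, one_smul]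
  rw [h1, Aff.avg]
  congr 1
  have h2 := Finset.sum_range_succ (fun i => F.orb i x) F.N
  have h3 := Finset.sum_range_succ' (fun i => F.orb i x) F.N
  rw [h2] at h3
  simp only [F.orb_N, F.orb_zero] at h3
  exact (add_right_cancel h3).symm

/-- averaging as an affine map -/
noncomputable def Aff.avgA : (Fin n → ℝ) →ᵃ[ℝ] (Fin n → ℝ) where
  toFun := F.avg
  linear := (F.N : ℝ)⁻¹ • ∑ i ∈ range F.N, Matrix.toLin' (cm F.A ^ i)
  map_vadd' := by
    intro p v
    simp only [Aff.avg, Aff.orb, vadd_eq_add, Matrix.mulVec_add, LinearMap.smul_apply,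
      LinearMap.sum_apply, Matrix.toLin'_apply, Finset.sum_add_distrib, smul_add]
    abel

theorem Aff.avg_mem {P : Set (Fin n → ℝ)} (hP : Convex ℝ P) (hinv : ∀ x ∈ P, F.T x ∈ P)
    {x : Fin n → ℝ} (hx : x ∈ P) : F.avg x ∈ P := by
  have hN : (F.N : ℝ) ≠ 0 := by exact_mod_cast F.hN.ne'
  have hmem : ∀ i, F.orb i x ∈ P := by
    intro i
    induction i with
    | zero => rw [F.orb_zero]; exact hx
    | succ i ih => rw [F.orb_succ]; exact hinv _ ih
  rw [Aff.avg, Finset.smul_sum]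
  apply hP.sum_mem
  · intro i _; positivity
  · rw [Finset.sum_const, card_range, nsmul_eq_mul, mul_inv_cancel₀ hN]
  · intro i _; exact hmem i

variable {r : ℕ} (D : Dat n F.N r F.A)

theorem ΦT (x : Fin n → ℝ) : (cm D.Φ).mulVec (F.T x) = (cm D.Φ).mulVec x := by
  rw [Aff.T, Matrix.mulVec_add, Matrix.mulVec_mulVec, ← cm_mul, D.ΦA F.hN F.hA, cm_mulVec,
    D.Φτ F.hN F.τ F.hτ, cv_zero, add_zero]

theorem Φorb (i : ℕ) (x : Fin n → ℝ) : (cm D.Φ).mulVec (F.orb i x) = (cm D.Φ).mulVec x := by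
  induction i with
  | zero => rw [F.orb_zero]
  | succ i ih => rw [F.orb_succ, ΦT, ih]

theorem Φavg (x : Fin n → ℝ) : (cm D.Φ).mulVec (F.avg x) = (cm D.Φ).mulVec x := by
  have hN : (F.N : ℝ) ≠ 0 := by exact_mod_cast F.hN.ne'
  rw [Aff.avg, Matrix.mulVec_smul, Matrix.mulVec_sum, Finset.sum_congr rfl
    (fun i _ => Φorb F D i x), Finset.sum_const, card_range, ← Nat.cast_smul_eq_nsmul ℝ, smul_smul,
    inv_mul_cancel₀ hN, one_smul]

/-- a vector fixed by the linear part and killed by the projection is zero -/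
theorem lin_zero {v : Fin n → ℝ} (h1 : (cm F.A).mulVec v = v) (h2 : (cm D.Φ).mulVec v = 0) :
    v = 0 := by
  have hN : (F.N : ℝ) ≠ 0 := by exact_mod_cast F.hN.ne'
  have h3 : ∀ i, (cm F.A ^ i).mulVec v = v := by
    intro i
    induction i with
    | zero => simp
    | succ i ih => rw [pow_succ, ← Matrix.mulVec_mulVec, h1, ih]
  have h4 : (cm (Nm F.A F.N)).mulVec v = (F.N : ℝ) • v := by
    have : cm (Nm F.A F.N) = ∑ i ∈ range F.N, cm F.A ^ i := by
      rw [Nm]
      have : ∀ m, cm (∑ i ∈ range m, F.A ^ i) = ∑ i ∈ range m, cm F.A ^ i := by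
        intro m
        induction m with
        | zero => ext i j; simp [cm]
        | succ m ih => rw [Finset.sum_range_succ, cm_add, ih, Finset.sum_range_succ, cm_pow]
      exact this _
    rw [this, Matrix.sum_mulVec, Finset.sum_congr rfl (fun i _ => h3 i), Finset.sum_const,
      card_range, ← Nat.cast_smul_eq_nsmul ℝ]
  rw [← D.hJΦ, cm_mul, ← Matrix.mulVec_mulVec, h2, Matrix.mulVec_zero] at h4
  exact (smul_eq_zero.1 h4.symm).resolve_left hN

theorem fixed_inj {x y : Fin n → ℝ} (hx : F.T x = x) (hy : F.T y = y)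
    (h : (cm D.Φ).mulVec x = (cm D.Φ).mulVec y) : x = y := by
  have h1 : x - y = 0 := by
    apply lin_zero F D
    · rw [Matrix.mulVec_sub]
      have e1 : (cm F.A).mulVec x = x - cv F.τ := by
        have h2 : (cm F.A).mulVec x + cv F.τ = x := hx
        exact eq_sub_of_add_eq h2
      have e2 : (cm F.A).mulVec y = y - cv F.τ := by
        have h2 : (cm F.A).mulVec y + cv F.τ = y := hy
        exact eq_sub_of_add_eq h2
      rw [e1, e2]; abel
    · rw [Matrix.mulVec_sub, h, sub_self]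
  exact sub_eq_zero.1 h1

/-- the fixed set at level k -/
def Fixk (k : ℕ) : Set (Fin n → ℝ) := {x | (cm F.A).mulVec x + (k : ℝ) • cv F.τ = x}

theorem fixk_scale {k : ℕ} (hk : 0 < k) (x : Fin n → ℝ) :
    x ∈ Fixk F k ↔ F.T ((k : ℝ)⁻¹ • x) = (k : ℝ)⁻¹ • x := by
  have hk' : (k : ℝ) ≠ 0 := by exact_mod_cast hk.ne'
  rw [Aff.T, Matrix.mulVec_smul]
  constructor
  · intro h
    have h' : (cm F.A).mulVec x + (k : ℝ) • cv F.τ = x := h
    conv_rhs => rw [← h']
    rw [smul_add, smul_smul, inv_mul_cancel₀ hk', one_smul]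
  · intro h
    have h2 := congrArg (fun y => (k : ℝ) • y) h
    simp only [smul_add, smul_smul, mul_inv_cancel₀ hk', one_smul] at h2
    exact h2

include D in
/-- the direction of the fixed space has the right dimension -/
theorem finrank_ker : Module.finrank ℝ (LinearMap.ker (Matrix.toLin' (1 - cm F.A))) = r := by
  let g : LinearMap.ker (Matrix.toLin' (1 - cm F.A)) →ₗ[ℝ] (Fin r → ℝ) :=
    (Matrix.toLin' (cm D.Φ)).domRestrict _
  have hfix : ∀ v : LinearMap.ker (Matrix.toLin' (1 - cm F.A)), (cm F.A).mulVec (v : Fin n → ℝ) = v := by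
    intro v
    have := v.2
    rw [LinearMap.mem_ker, Matrix.toLin'_apply, Matrix.sub_mulVec, Matrix.one_mulVec,
      sub_eq_zero] at this
    exact this.symm
  have hinj : Function.Injective g := by
    rw [← LinearMap.ker_eq_bot, LinearMap.ker_eq_bot']
    intro v hv
    apply Subtype.ext
    exact lin_zero F D (hfix v) hv
  have hsurj : Function.Surjective g := by
    intro y
    have hN : (F.N : ℝ) ≠ 0 := by exact_mod_cast F.hN.ne'
    refine ⟨⟨(F.N : ℝ)⁻¹ • (cm D.J).mulVec y, ?_⟩, ?_⟩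
    · rw [LinearMap.mem_ker, Matrix.toLin'_apply, Matrix.sub_mulVec, Matrix.one_mulVec,
        Matrix.mulVec_smul, Matrix.mulVec_mulVec, ← cm_mul, D.AJ F.hA, sub_self]
    · show (cm D.Φ).mulVec ((F.N : ℝ)⁻¹ • (cm D.J).mulVec y) = y
      rw [Matrix.mulVec_smul, Matrix.mulVec_mulVec, ← cm_mul, D.hΦJ, cm_smul, cm_one,
        Matrix.smul_mulVec, Matrix.one_mulVec, smul_smul]
      rw [Int.cast_natCast, inv_mul_cancel₀ hN, one_smul]
  rw [(LinearEquiv.ofBijective g ⟨hinj, hsurj⟩).finrank_eq, Module.finrank_fintype_fun_eq_card,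
    Fintype.card_fin]

/-- the affine span of the dilated fixed polytope -/
theorem span_fixed {P : Set (Fin n → ℝ)} (hP : Convex ℝ P) (hinv : ∀ x ∈ P, F.T x ∈ P)
    (hspan : affineSpan ℝ P = ⊤) {k : ℕ} (hk : 0 < k) :
    (affineSpan ℝ ((k : ℝ) • {x | x ∈ P ∧ F.T x = x}) : Set (Fin n → ℝ)) = Fixk F k := by
  have hk' : (k : ℝ) ≠ 0 := by exact_mod_cast hk.ne'
  have himg : {x | x ∈ P ∧ F.T x = x} = F.avgA '' P := by
    ext x
    constructor
    · rintro ⟨h1, h2⟩
      exact ⟨x, h1, F.avg_fixed h2⟩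
    · rintro ⟨y, hy, rfl⟩
      exact ⟨F.avg_mem hP hinv hy, F.T_avg y⟩
  have h1 : (affineSpan ℝ {x | x ∈ P ∧ F.T x = x} : Set (Fin n → ℝ)) = {x | F.T x = x} := by
    rw [himg, ← AffineSubspace.map_span, hspan]
    ext x
    rw [AffineSubspace.coe_map]
    constructor
    · rintro ⟨y, _, rfl⟩
      exact F.T_avg y
    · intro hx
      exact ⟨x, AffineSubspace.mem_top ℝ _ x, F.avg_fixed hx⟩
  let hom : (Fin n → ℝ) →ᵃ[ℝ] (Fin n → ℝ) := ((k : ℝ) • LinearMap.id).toAffineMap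
  have h2 : ((k : ℝ) • {x | x ∈ P ∧ F.T x = x}) = hom '' {x | x ∈ P ∧ F.T x = x} := rfl
  rw [h2, ← AffineSubspace.map_span, AffineSubspace.coe_map, h1]
  ext x
  constructor
  · rintro ⟨y, hy, rfl⟩
    rw [fixk_scale F hk]
    have : (k : ℝ)⁻¹ • hom y = y := by
      show (k : ℝ)⁻¹ • ((k : ℝ) • y) = y
      rw [smul_smul, inv_mul_cancel₀ hk', one_smul]
    rw [this]
    exact hy
  · intro hx
    rw [fixk_scale F hk] at hx
    refine ⟨(k : ℝ)⁻¹ • x, hx, ?_⟩
    show (k : ℝ) • ((k : ℝ)⁻¹ • x) = x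
    rw [smul_smul, mul_inv_cancel₀ hk', one_smul]

include D in
theorem finrank_span {P : Set (Fin n → ℝ)} (hP : Convex ℝ P) (hinv : ∀ x ∈ P, F.T x ∈ P)
    (hspan : affineSpan ℝ P = ⊤) :
    Module.finrank ℝ (affineSpan ℝ {x | x ∈ P ∧ F.T x = x}).direction = r := by
  have h1 := span_fixed F hP hinv hspan one_pos
  rw [Nat.cast_one, one_smul] at h1
  -- a fixed point
  have h0 : F.T (F.avg 0) = F.avg 0 := F.T_avg 0
  have h2 : affineSpan ℝ {x | x ∈ P ∧ F.T x = x} =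
      AffineSubspace.mk' (F.avg 0) (LinearMap.ker (Matrix.toLin' (1 - cm F.A))) := by
    apply SetLike.coe_injective
    rw [h1]
    ext x
    rw [SetLike.mem_coe, AffineSubspace.mem_mk', LinearMap.mem_ker, Matrix.toLin'_apply,
      Matrix.sub_mulVec, Matrix.one_mulVec, vsub_eq_sub, Matrix.mulVec_sub]
    have e1 : (cm F.A).mulVec (F.avg 0) = F.avg 0 - cv F.τ := by
      have h2 : (cm F.A).mulVec (F.avg 0) + cv F.τ = F.avg 0 := h0
      exact eq_sub_of_add_eq h2
    rw [e1]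
    constructor
    · intro hx
      have hx' : (cm F.A).mulVec x + ((1 : ℕ) : ℝ) • cv F.τ = x := hx
      rw [Nat.cast_one, one_smul] at hx'
      have e2 : (cm F.A).mulVec x = x - cv F.τ := eq_sub_of_add_eq hx'
      rw [e2]; abel
    · intro hx
      show (cm F.A).mulVec x + ((1 : ℕ) : ℝ) • cv F.τ = x
      rw [Nat.cast_one, one_smul]
      have e3 : x - F.avg 0 - ((cm F.A).mulVec x - (F.avg 0 - cv F.τ)) =
        x - ((cm F.A).mulVec x + cv F.τ) := by abel
      rw [e3] at hx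
      exact (sub_eq_zero.1 hx).symm
  rw [h2, AffineSubspace.direction_mk', finrank_ker F D]

end Pool.Agent.H160R3.Geo
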