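import Pool.Agent.H160R3.Tri1

set_option autoImplicit false
open MeasureTheory
open scoped ENNReal

namespace Pool.Agent.H160R3.Tri

variable {r k : ℕ}

/-- feasible weights -/
def Feas (P : Fin k → Fin r → ℝ) (x : Fin r → ℝ) : Set (Fin k → ℝ) :=
  {w | (∀ s, 0 ≤ w s) ∧ ∑ s, w s = 1 ∧ ∑ s, w s • P s = x}

theorem isCompact_feas (P : Fin k → Fin r → ℝ) (x : Fin r → ℝ) : IsCompact (Feas P x) := by
  have e : Feas P x = stdSimplex ℝ (Fin k) ∩ {w | ∑ s, w s • P s = x} := by
    ext w
    constructor
    · rintro ⟨h1, h2, h3⟩; exact ⟨⟨h1, h2⟩, h3⟩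
    · rintro ⟨⟨h1, h2⟩, h3⟩; exact ⟨h1, h2, h3⟩
  rw [e]
  apply (isCompact_stdSimplex ℝ (Fin k)).inter_right
  apply isClosed_eq _ continuous_const
  fun_prop

/-- optimal weights -/
def IsOpt (P : Fin k → Fin r → ℝ) (ω : Fin k → ℝ) (x : Fin r → ℝ) (w : Fin k → ℝ) : Prop :=
  w ∈ Feas P x ∧ ∀ w' ∈ Feas P x, ∑ s, w s * ω s ≤ ∑ s, w' s * ω s

theorem exists_isOpt (P : Fin k → Fin r → ℝ) (ω : Fin k → ℝ) (x : Fin r → ℝ)
    (h : (Feas P x).Nonempty) : ∃ w, IsOpt P ω x w := by
  obtain ⟨w, hw, hmin⟩ := (isCompact_feas P x).exists_isMinOn h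
    (f := fun w => ∑ s, w s * ω s) (by fun_prop)
  exact ⟨w, hw, fun w' hw' => hmin hw'⟩

theorem small_eps {ι : Type*} [Fintype ι] (a b : ι → ℝ) (ha : ∀ i, 0 ≤ a i)
    (hb : ∀ i, a i = 0 → 0 ≤ b i) : ∃ ε : ℝ, 0 < ε ∧ ∀ i, 0 ≤ a i + ε * b i := by
  classical
  by_cases hne : Nonempty ι
  · let g : ι → ℝ := fun i => if a i = 0 then 1 else a i / (1 + |b i|)
    have hg : ∀ i, 0 < g i := by
      intro i
      simp only [g]
      split_ifs with h
      · exact one_pos
      · have : 0 < a i := lt_of_le_of_ne (ha i) (Ne.symm h)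
        positivity
    obtain ⟨i0, _, h0⟩ := Finset.exists_min_image Finset.univ g Finset.univ_nonempty
    refine ⟨g i0, hg i0, ?_⟩
    intro i
    by_cases h : a i = 0
    · rw [h, zero_add]
      exact mul_nonneg (hg _).le (hb i h)
    · have h1 : g i0 ≤ a i / (1 + |b i|) := by
        have := h0 i (Finset.mem_univ i)
        simpa only [g, if_neg h] using this
      have h2 : g i0 * (1 + |b i|) ≤ a i := by
        rwa [le_div_iff₀ (by positivity)] at h1
      have h3 : -|b i| ≤ b i := neg_abs_le _
      have h4 := hg i0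
      nlinarith
  · exact ⟨1, one_pos, fun i => (hne ⟨i⟩).elim⟩

/-- any optimal solution can be replaced by one with independent support -/
theorem exists_isOpt_indep (P : Fin k → Fin r → ℝ) (ω : Fin k → ℝ) (x : Fin r → ℝ)
    (h : (Feas P x).Nonempty) : ∃ w, IsOpt P ω x w ∧
      ∀ μ : Fin k → ℝ, (∀ s, w s = 0 → μ s = 0) → ∑ s, μ s = 0 → ∑ s, μ s • P s = 0 → μ = 0 := by
  classical
  obtain ⟨w0, hw0⟩ := exists_isOpt P ω x h
  have hwf : ∃ w, IsOpt P ω x w ∧ ∀ w', IsOpt P ω x w' →
      (Finset.univ.filter fun s => w s ≠ 0).card ≤ (Finset.univ.filter fun s => w' s ≠ 0).card := by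
    let S : Set (Fin k → ℝ) := {w | IsOpt P ω x w}
    obtain ⟨w, hw, hmin⟩ := WellFounded.has_min
      (measure (fun w : Fin k → ℝ => (Finset.univ.filter fun s => w s ≠ 0).card)).wf S ⟨w0, hw0⟩
    refine ⟨w, hw, fun w' hw' => ?_⟩
    have := hmin w' hw'
    simp only [InvImage, WellFoundedRelation.rel] at this
    exact not_lt.1 this
  obtain ⟨w, hw, hmin⟩ := hwf
  refine ⟨w, hw, ?_⟩
  intro μ hμ0 hμ1 hμ2
  by_contra hμ
  -- cost of μ is zero
  have step : ∀ ν : Fin k → ℝ, (∀ s, w s = 0 → ν s = 0) → ∑ s, ν s = 0 → ∑ s, ν s • P s = 0 →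
      ∀ ε : ℝ, (∀ s, 0 ≤ w s + ε * ν s) → (fun s => w s + ε * ν s) ∈ Feas P x := by
    intro ν _ h1 h2 ε hε
    refine ⟨hε, ?_, ?_⟩
    · rw [Finset.sum_add_distrib, ← Finset.mul_sum, h1, mul_zero, add_zero]; exact hw.1.2.1
    · simp only [add_smul, Finset.sum_add_distrib, mul_smul]
      rw [← Finset.smul_sum, h2, smul_zero, add_zero]; exact hw.1.2.2
  have cost : ∀ ν : Fin k → ℝ, (∀ s, w s = 0 → ν s = 0) → ∑ s, ν s = 0 → ∑ s, ν s • P s = 0 →
      0 ≤ ∑ s, ν s * ω s := by
    intro ν h0 h1 h2
    obtain ⟨ε, hε, hε2⟩ := small_eps w ν hw.1.1 (fun i hi => (h0 i hi).ge)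
    have h3 := hw.2 _ (step ν h0 h1 h2 ε hε2)
    simp only [add_mul, Finset.sum_add_distrib] at h3
    have h4 : 0 ≤ ε * ∑ s, ν s * ω s := by
      rw [Finset.mul_sum]
      have : ∑ s, ε * ν s * ω s = ∑ s, ε * (ν s * ω s) := by
        apply Finset.sum_congr rfl; intro s _; ring
      linarith
    exact nonneg_of_mul_nonneg_right h4 hε
  have c1 := cost μ hμ0 hμ1 hμ2
  have c2 := cost (-μ) (fun s hs => by simp [hμ0 s hs]) (by simp [hμ1])
    (by simp only [Pi.neg_apply, neg_smul, Finset.sum_neg_distrib, hμ2, neg_zero])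
  have c3 : ∑ s, μ s * ω s = 0 := by
    simp only [Pi.neg_apply, neg_mul, Finset.sum_neg_distrib] at c2
    linarith
  -- some coordinate negative
  have hneg : ∃ s, μ s < 0 := by
    by_contra hcon
    push Not at hcon
    apply hμ
    funext s
    exact (Finset.sum_eq_zero_iff_of_nonneg (fun s _ => hcon s)).1 hμ1 s (Finset.mem_univ s)
  obtain ⟨s0, hs0⟩ := hneg
  -- the largest step
  have hne : (Finset.univ.filter fun s => μ s < 0).Nonempty := ⟨s0, by simp [hs0]⟩
  obtain ⟨s1, hs1, hmin1⟩ := Finset.exists_min_image _ (fun s => w s / (-μ s)) hne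
  have hs1' : μ s1 < 0 := by simpa using hs1
  set ε : ℝ := w s1 / (-μ s1) with hεdef
  have hε0 : 0 ≤ ε := div_nonneg (hw.1.1 s1) (by linarith)
  have hfe : ∀ s, 0 ≤ w s + ε * μ s := by
    intro s
    by_cases hs : μ s < 0
    · have h1 := hmin1 s (by simp [hs])
      have h2 : ε * (-μ s) ≤ w s := by
        rwa [le_div_iff₀ (by linarith)] at h1
      linarith
    · have := hw.1.1 s
      have h2 : 0 ≤ ε * μ s := mul_nonneg hε0 (not_lt.1 hs)
      linarith
  have hfeas := step μ hμ0 hμ1 hμ2 ε hfe
  have hopt : IsOpt P ω x (fun s => w s + ε * μ s) := by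
    refine ⟨hfeas, fun w' hw' => ?_⟩
    have h1 := hw.2 w' hw'
    have h2 : ∑ s, (w s + ε * μ s) * ω s = ∑ s, w s * ω s + ε * ∑ s, μ s * ω s := by
      rw [Finset.mul_sum, ← Finset.sum_add_distrib]
      apply Finset.sum_congr rfl; intro s _; ring
    rw [h2, c3, mul_zero, add_zero]
    exact h1
  have hlt := hmin _ hopt
  have hss : (Finset.univ.filter fun s => w s + ε * μ s ≠ 0) ⊂
      (Finset.univ.filter fun s => w s ≠ 0) := by
    rw [Finset.ssubset_iff_of_subset]
    · refine ⟨s1, ?_, ?_⟩
      · simp only [Finset.mem_filter, Finset.mem_univ, true_and]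
        intro h
        have := hμ0 s1 h
        linarith
      · simp only [Finset.mem_filter, Finset.mem_univ, true_and, not_not]
        rw [hεdef]
        have : μ s1 ≠ 0 := hs1'.ne
        field_simp
        ring
    · intro s
      simp only [Finset.mem_filter, Finset.mem_univ, true_and]
      intro h1 h2
      apply h1
      rw [h2, hμ0 s h2, mul_zero, add_zero]
  have := Finset.card_lt_card hss
  omega

/-- the exceptional set -/
def Exc (P : Fin k → Fin r → ℝ) : Set (Fin r → ℝ) :=
  ⋃ γ : Fin r → Fin k, (affineSpan ℝ (Set.range (P ∘ γ)) : Set (Fin r → ℝ))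

theorem exc_null (P : Fin k → Fin r → ℝ) : volume (Exc P) = 0 := by
  rw [Exc, measure_iUnion_null_iff]
  intro γ
  apply Measure.addHaar_affineSubspace
  intro htop
  -- dimension count
  by_cases hr : r = 0
  · subst hr
    have : Set.range (P ∘ γ) = ∅ := Set.range_eq_empty _
    rw [this, AffineSubspace.span_empty] at htop
    exact AffineSubspace.bot_ne_top ℝ (Fin 0 → ℝ) (Fin 0 → ℝ) htop
  · have h1 : Module.finrank ℝ (vectorSpan ℝ (Set.range (P ∘ γ))) + 1 ≤ Fintype.card (Fin r) := by
      have : Nonempty (Fin r) := ⟨⟨0, Nat.pos_of_ne_zero hr⟩⟩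
      exact finrank_vectorSpan_range_add_one_le ℝ (P ∘ γ)
    have h2 : vectorSpan ℝ (Set.range (P ∘ γ)) = ⊤ := by
      rw [← direction_affineSpan, htop, AffineSubspace.direction_top]
    rw [h2, finrank_top, Module.finrank_fintype_fun_eq_card] at h1
    omega

theorem exists_cell (P : Fin k → Fin r → ℝ) (ω : Fin k → ℝ) (x : Fin r → ℝ)
    (hx : x ∈ convexHull ℝ (Set.range P)) (hx2 : x ∉ Exc P) :
    ∃ β : Fin (r + 1) ↪o Fin k, Opt P ω β ∧ x ∈ cell P β := by
  classical
  have hne : (Feas P x).Nonempty := by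
    rw [convexHull_range_eq_exists_affineCombination] at hx
    obtain ⟨s, w, hw0, hw1, rfl⟩ := hx
    refine ⟨fun i => if i ∈ s then w i else 0, ?_, ?_, ?_⟩
    · intro i
      show 0 ≤ if i ∈ s then w i else 0
      split_ifs with h
      · exact hw0 i h
      · exact le_rfl
    · rw [Finset.sum_ite_mem, Finset.univ_inter, hw1]
    · simp only [ite_smul, zero_smul]
      rw [Finset.sum_ite_mem, Finset.univ_inter,
        Finset.affineCombination_eq_linear_combination _ _ _ hw1]
  obtain ⟨w, hw, hind⟩ := exists_isOpt_indep P ω x hne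
  set S : Finset (Fin k) := Finset.univ.filter fun s => w s ≠ 0 with hS
  have hSw : ∀ s, s ∉ S → w s = 0 := by
    intro s hs
    by_contra h
    exact hs (by simp [hS, h])
  have hSne : S.Nonempty := by
    by_contra hcon
    rw [Finset.not_nonempty_iff_eq_empty] at hcon
    have : ∑ s, w s = 0 := Finset.sum_eq_zero fun s _ => hSw s (by rw [hcon]; simp)
    rw [hw.1.2.1] at this
    exact one_ne_zero this
  -- support has at least r+1 elements
  have hge : r + 1 ≤ S.card := by
    by_contra hcon
    push Not at hcon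
    apply hx2
    -- a map covering S
    have hcov : ∃ γ : Fin r → Fin k, ∀ s ∈ S, s ∈ Set.range γ := by
      obtain ⟨s0, hs0⟩ := hSne
      refine ⟨fun i => if h : i.1 < S.card then (S.equivFin.symm ⟨i.1, h⟩ : Fin k) else s0, ?_⟩
      intro s hs
      refine ⟨⟨(S.equivFin ⟨s, hs⟩).1, by have := (S.equivFin ⟨s, hs⟩).2; omega⟩, ?_⟩
      simp
    obtain ⟨γ, hγ⟩ := hcov
    rw [Exc, Set.mem_iUnion]
    refine ⟨γ, ?_⟩
    have h1 : x = S.affineCombination ℝ P w := by
      rw [Finset.affineCombination_eq_linear_combination _ _ _ (by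
        rw [← hw.1.2.1]; exact Finset.sum_subset (Finset.subset_univ S) (fun s _ hs => hSw s hs)),
        ← hw.1.2.2]
      symm
      apply Finset.sum_subset (Finset.subset_univ S)
      intro s _ hs
      rw [hSw s hs, zero_smul]
    rw [h1]
    have h2 : S.affineCombination ℝ P w ∈ affineSpan ℝ (P '' (S : Set (Fin k))) := by
      apply affineCombination_mem_affineSpan_image
      · rw [← hw.1.2.1]; exact Finset.sum_subset (Finset.subset_univ S) (fun s _ hs => hSw s hs)
      · intro i hi hi2
        exact absurd (Finset.mem_coe.2 hi) hi2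
    apply affineSpan_mono ℝ _ h2
    rintro y ⟨s, hs, rfl⟩
    obtain ⟨i, hi⟩ := hγ s hs
    exact ⟨i, by simp [hi]⟩
  -- support has at most r+1 elements
  have hle : S.card ≤ r + 1 := by
    let V : Submodule ℝ (Fin k → ℝ) :=
      { carrier := {μ | ∀ s, s ∉ S → μ s = 0}
        add_mem' := fun {a b} ha hb s hs => by simp [ha s hs, hb s hs]
        zero_mem' := fun s _ => rfl
        smul_mem' := fun c a ha s hs => by simp [ha s hs] }
    let f : (S → ℝ) →ₗ[ℝ] (ℝ × (Fin r → ℝ)) :=
      { toFun := fun μ => (∑ s : S, μ s, ∑ s : S, μ s • P s)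
        map_add' := fun a b => by simp [add_smul, Finset.sum_add_distrib]
        map_smul' := fun c a => by simp [mul_smul, Finset.mul_sum, Finset.smul_sum] }
    have hf : Function.Injective f := by
      rw [← LinearMap.ker_eq_bot, LinearMap.ker_eq_bot']
      intro μ hμ
      have e1 : ∑ s : S, μ s = 0 := congrArg Prod.fst hμ
      have e2 : ∑ s : S, μ s • P s = 0 := congrArg Prod.snd hμ
      have k1 : ∑ s, (if h : s ∈ S then μ ⟨s, h⟩ else 0) = ∑ s : S, μ s := by
        rw [← Finset.sum_subset (Finset.subset_univ S), ← Finset.sum_coe_sort S]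
        · apply Finset.sum_congr rfl
          intro s _
          simp
        · intro s _ hs
          simp [hs]
      have k2 : ∑ s, (if h : s ∈ S then μ ⟨s, h⟩ else 0) • P s = ∑ s : S, μ s • P s := by
        rw [← Finset.sum_subset (Finset.subset_univ S), ← Finset.sum_coe_sort S]
        · apply Finset.sum_congr rfl
          intro s _
          simp
        · intro s _ hs
          simp [hs]
      have := hind (fun s => if h : s ∈ S then μ ⟨s, h⟩ else 0) (by
          intro s hs
          have : s ∉ S := by simp [hS, hs]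
          simp [this]) (k1.trans e1) (k2.trans e2)
      funext s
      have h2 := congrFun this s.1
      simpa using h2
    have := LinearMap.finrank_le_finrank_of_injective hf
    rw [Module.finrank_fintype_fun_eq_card, Module.finrank_prod, Module.finrank_self,
      Module.finrank_fintype_fun_eq_card, Fintype.card_fin, Fintype.card_coe] at this
    omega
  have hcard : S.card = r + 1 := le_antisymm hle hge
  set β : Fin (r + 1) ↪o Fin k := S.orderEmbOfFin hcard with hβ
  have hβr : ∀ i, β i ∈ S := fun i => Finset.orderEmbOfFin_mem S hcard i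
  have hβs : ∀ s ∈ S, ∃ i, β i = s := by
    intro s hs
    have : s ∈ Set.range β := by
      rw [hβ, Finset.range_orderEmbOfFin]; exact hs
    exact this
  have hsum : ∀ {M : Type} [AddCommMonoid M] (F : Fin k → M), (∀ s, s ∉ S → F s = 0) →
      ∑ s, F s = ∑ i, F (β i) := by
    intro M _ F hF
    rw [← Finset.sum_subset (Finset.subset_univ S) (fun s _ hs => hF s hs)]
    symm
    apply Finset.sum_nbij (fun i => β i)
    · intro i _; exact hβr i
    · intro i _ j _ hij; exact β.injective hij
    · intro s hs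
      obtain ⟨i, hi⟩ := hβs s hs
      exact ⟨i, by simp, hi⟩
    · intro i _; rfl
  have hwpos : ∀ i, 0 < w (β i) := by
    intro i
    have h1 := hw.1.1 (β i)
    have h2 : w (β i) ≠ 0 := by
      have := hβr i
      simpa [hS] using this
    exact lt_of_le_of_ne h1 h2.symm
  have hNd : Nd P β := by
    intro μ h1 h2
    have := hind (fun s => ∑ i, if β i = s then μ i else 0) (by
        intro s hs
        apply Finset.sum_eq_zero
        intro i _
        rw [if_neg]
        intro h
        have := hwpos i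
        rw [h, hs] at this
        exact lt_irrefl _ this) (by
        rw [Finset.sum_comm]
        simp [h1]) (by
        simp only [Finset.sum_smul, ite_smul, zero_smul]
        rw [Finset.sum_comm]
        simp [h2])
    funext j
    have h3 := congrFun this (β j)
    simpa using h3
  refine ⟨β, ⟨hNd, ?_⟩, ?_⟩
  · intro s α hα1 hα2
    -- direction e_s - Σ α e_β
    set ν : Fin k → ℝ := fun u => (if u = s then 1 else 0) - ∑ i, (if β i = u then α i else 0) with hν
    have hν1 : ∑ u, ν u = 0 := by
      simp only [hν, Finset.sum_sub_distrib]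
      rw [Finset.sum_comm (s := Finset.univ) (t := Finset.univ)]
      simp [hα1]
    have hν2 : ∑ u, ν u • P u = 0 := by
      simp only [hν, sub_smul, Finset.sum_sub_distrib, Finset.sum_smul, ite_smul, zero_smul,
        one_smul]
      rw [Finset.sum_comm (s := Finset.univ) (t := Finset.univ)]
      simp [hα2]
    have hν3 : ∑ u, ν u * ω u = ω s - ∑ i, α i * ω (β i) := by
      simp only [hν, sub_mul, Finset.sum_sub_distrib, Finset.sum_mul, ite_mul, zero_mul, one_mul]
      rw [Finset.sum_comm (s := Finset.univ) (t := Finset.univ)]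
      simp
    obtain ⟨ε, hε, hε2⟩ := small_eps w ν hw.1.1 (by
      intro u hu
      have h0 : ∑ i, (if β i = u then α i else 0) = 0 := by
        apply Finset.sum_eq_zero
        intro i _
        rw [if_neg]
        intro h
        have := hwpos i
        rw [h, hu] at this
        exact lt_irrefl _ this
      simp only [hν, h0, sub_zero]
      split_ifs
      · exact zero_le_one
      · exact le_rfl)
    have hfe : (fun u => w u + ε * ν u) ∈ Feas P x := by
      refine ⟨hε2, ?_, ?_⟩
      · rw [Finset.sum_add_distrib, ← Finset.mul_sum, hν1, mul_zero, add_zero]; exact hw.1.2.1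
      · simp only [add_smul, Finset.sum_add_distrib, mul_smul]
        rw [← Finset.smul_sum, hν2, smul_zero, add_zero]; exact hw.1.2.2
    have h3 := hw.2 _ hfe
    have h4 : ∑ u, (w u + ε * ν u) * ω u = ∑ u, w u * ω u + ε * ∑ u, ν u * ω u := by
      rw [Finset.mul_sum, ← Finset.sum_add_distrib]
      apply Finset.sum_congr rfl; intro u _; ring
    rw [h4, hν3] at h3
    have h5 : 0 ≤ ε * (ω s - ∑ i, α i * ω (β i)) := by linarith
    have h6 := nonneg_of_mul_nonneg_right h5 hε
    linarith
  · rw [mem_cell]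
    refine ⟨fun i => w (β i), hwpos, ?_, ?_⟩
    · rw [← hw.1.2.1]
      exact (hsum (fun s => w s) hSw).symm
    · rw [← hw.1.2.2]
      exact (hsum (fun s => w s • P s) (fun s hs => by rw [hSw s hs, zero_smul])).symm

theorem cell_subset (P : Fin k → Fin r → ℝ) (β : Fin (r + 1) → Fin k) :
    cell P β ⊆ convexHull ℝ (Set.range P) := by
  intro x hx
  rw [mem_cell] at hx
  obtain ⟨w, hw0, hw1, rfl⟩ := hx
  apply (convex_convexHull ℝ (Set.range P)).sum_mem
  · intro i _; exact (hw0 i).le
  · exact hw1
  · intro i _; exact subset_convexHull ℝ _ ⟨_, rfl⟩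

theorem measurable_cell (P : Fin k → Fin r → ℝ) (β : Fin (r + 1) → Fin k) (h : Nd P β) :
    MeasurableSet (cell P β) := by
  have hinj : Function.Injective (Matrix.toLin' (L P β)) := by
    rw [← LinearMap.ker_eq_bot, LinearMap.ker_eq_bot']
    intro c hc
    rw [Matrix.toLin'_apply, L_apply] at hc
    have := h (Fin.cons (-∑ i, c i) c) (by rw [Fin.sum_univ_succ]; simp) (by
      rw [Fin.sum_univ_succ]
      simp only [Fin.cons_zero, Fin.cons_succ]
      rw [neg_smul, Finset.sum_smul, ← hc]
      simp only [smul_sub, Finset.sum_sub_distrib]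
      abel)
    funext i
    have h2 := congrFun this i.succ
    simpa using h2
  have hc : Continuous (fun c => P (β 0) + (L P β).mulVec c) := by
    apply continuous_const.add
    exact (Matrix.toLin' (L P β)).continuous_of_finiteDimensional
  apply (isOpen_simp0 r).measurableSet.image_of_continuousOn_injOn hc.continuousOn
  intro a _ b _ hab
  apply hinj
  rw [Matrix.toLin'_apply, Matrix.toLin'_apply]
  exact add_left_cancel hab

/-- the normalized volume of a lattice polytope is a natural number -/
theorem vol_integral (p : Fin k → Fin r → ℤ) :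
    ∃ N : ℕ, (r.factorial : ℝ) *
      volume.real (convexHull ℝ (Set.range fun s => fun i => ((p s i : ℤ) : ℝ))) = N := by
  classical
  set P : Fin k → Fin r → ℝ := fun s => fun i => ((p s i : ℤ) : ℝ) with hP
  obtain ⟨ω, hω⟩ := exists_gen P
  set T : Finset (Fin (r + 1) ↪o Fin k) := Finset.univ.filter fun β => Opt P ω β with hT
  have h1 : volume (convexHull ℝ (Set.range P)) = volume (⋃ β ∈ T, cell P β) := by
    apply le_antisymm
    · have hsub : convexHull ℝ (Set.range P) ⊆ (⋃ β ∈ T, cell P β) ∪ Exc P := by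
        intro x hx
        by_cases hx2 : x ∈ Exc P
        · exact Or.inr hx2
        · left
          obtain ⟨β, hβ, hβ2⟩ := exists_cell P ω x hx hx2
          simp only [Set.mem_iUnion]
          exact ⟨β, by simp [hT, hβ], hβ2⟩
      calc volume (convexHull ℝ (Set.range P)) ≤ volume ((⋃ β ∈ T, cell P β) ∪ Exc P) :=
            measure_mono hsub
        _ ≤ volume (⋃ β ∈ T, cell P β) + volume (Exc P) := measure_union_le _ _
        _ = volume (⋃ β ∈ T, cell P β) := by rw [exc_null, add_zero]
    · apply measure_mono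
      intro x hx
      simp only [Set.mem_iUnion] at hx
      obtain ⟨β, _, hβ⟩ := hx
      exact cell_subset P β hβ
  have h2 : volume (⋃ β ∈ T, cell P β) = ∑ β ∈ T, volume (cell P β) := by
    apply measure_biUnion_finset
    · intro β hβ β' hβ' hne
      apply cell_disjoint hω _ _ hne
      · simpa [hT] using hβ
      · simpa [hT] using hβ'
    · intro β hβ
      apply measurable_cell
      have : Opt P ω β := by simpa [hT] using hβ
      exact this.1
  refine ⟨∑ β ∈ T, (Matrix.of fun a i => p (β i.succ) a - p (β 0) a : Matrix (Fin r) (Fin r) ℤ).det.natAbs, ?_⟩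
  have h3 : ∀ β : Fin (r + 1) → Fin k, volume.real (cell P β) =
      ((Matrix.of fun a i => p (β i.succ) a - p (β 0) a : Matrix (Fin r) (Fin r) ℤ).det.natAbs : ℝ) /
        (r.factorial : ℝ) := by
    intro β
    rw [measureReal_def, vol_cell, ENNReal.toReal_ofReal (by positivity)]
    congr 1
    have : L P β = (Matrix.of fun a i => p (β i.succ) a - p (β 0) a : Matrix (Fin r) (Fin r) ℤ).map
        (Int.castRingHom ℝ) := by
      ext a i
      simp [L, hP]
    rw [this, ← RingHom.mapMatrix_apply, ← RingHom.map_det, Nat.cast_natAbs]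
    simp
  have h4 : volume.real (convexHull ℝ (Set.range P)) = ∑ β ∈ T, volume.real (cell P β) := by
    rw [measureReal_def, h1, h2, ENNReal.toReal_sum]
    · rfl
    · intro β _
      rw [vol_cell]
      exact ENNReal.ofReal_ne_top
  rw [h4, Finset.mul_sum]
  push_cast
  apply Finset.sum_congr rfl
  intro β _
  rw [h3]
  have : (r.factorial : ℝ) ≠ 0 := by exact_mod_cast r.factorial_ne_zero
  field_simp

end Pool.Agent.H160R3.Tri
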