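import Pool.Agent.H160R3.Geo1
import Pool.Agent.H160R3.Tri2

set_option autoImplicit false
open scoped Pointwise

namespace Pool.Agent.H160R3.Geo

open Matrix Finset Pool.Agent.H160R3.Alg MeasureTheory

variable {n : ℕ} (F : Aff n)

/-- solvability at level k -/
def Lev (k : ℕ) : Prop := ∃ z : Fin n → ℤ, F.A.mulVec z + (k : ℤ) • F.τ = z

theorem lev_iff (k : ℕ) (z : Fin n → ℤ) :
    cv z ∈ Fixk F k ↔ F.A.mulVec z + (k : ℤ) • F.τ = z := by
  have h : (cm F.A).mulVec (cv z) + (k : ℝ) • cv F.τ = cv (F.A.mulVec z + (k : ℤ) • F.τ) := by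
    rw [cm_mulVec, cv_add, cv_zsmul, Int.cast_natCast]
  constructor
  · intro hz
    have hz' : (cm F.A).mulVec (cv z) + (k : ℝ) • cv F.τ = cv z := hz
    rw [h] at hz'
    exact cv_inj hz'
  · intro hz
    show (cm F.A).mulVec (cv z) + (k : ℝ) • cv F.τ = cv z
    rw [h, hz]

theorem lev_N : Lev F F.N := by
  refine ⟨∑ i ∈ range F.N, F.s i, ?_⟩
  have h1 : F.A.mulVec (∑ i ∈ range F.N, F.s i) + (F.N : ℤ) • F.τ = ∑ i ∈ range F.N, F.s (i + 1) := by
    simp only [Aff.s, Finset.sum_add_distrib, Finset.sum_const, card_range, Matrix.mulVec_sum]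
    congr 1
  rw [h1]
  have h2 := Finset.sum_range_succ (fun i => F.s i) F.N
  have h3 := Finset.sum_range_succ' (fun i => F.s i) F.N
  rw [h2] at h3
  have h4 : F.s 0 = 0 := rfl
  rw [F.s_N, h4] at h3
  exact (add_right_cancel h3).symm

theorem lev_dvd {m k : ℕ} (hm : 0 < m) (hlm : Lev F m) (hmin : ∀ j, 0 < j → Lev F j → m ≤ j)
    (hlk : Lev F k) : m ∣ k := by
  obtain ⟨z, hz⟩ := hlk
  obtain ⟨w, hw⟩ := hlm
  by_contra hcon
  have hpos : 0 < k % m := Nat.pos_of_ne_zero (fun h => hcon (Nat.dvd_of_mod_eq_zero h))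
  have hlt : k % m < m := Nat.mod_lt _ hm
  have : Lev F (k % m) := by
    refine ⟨z - ((k / m : ℕ) : ℤ) • w, ?_⟩
    have e : ((k % m : ℕ) : ℤ) = (k : ℤ) - ((k / m : ℕ) : ℤ) * (m : ℤ) := by
      have := Nat.mod_add_div k m
      have h2 : ((k % m : ℕ) : ℤ) + (m : ℤ) * ((k / m : ℕ) : ℤ) = (k : ℤ) := by exact_mod_cast this
      linarith
    rw [e, sub_smul, mul_smul, Matrix.mulVec_sub, Matrix.mulVec_smul]
    have h1 : F.A.mulVec z = z - (k : ℤ) • F.τ := eq_sub_of_add_eq hz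
    have h2 : F.A.mulVec w = w - (m : ℤ) • F.τ := eq_sub_of_add_eq hw
    rw [h1, h2, smul_sub]
    abel
  exact absurd (hmin _ hpos this) (not_le.2 hlt)

variable {r : ℕ} (D : Dat n F.N r F.A)

include D in
theorem τ_mem : F.τ ∈ D.K := (D.mem_K _).2 (D.Φτ F.hN F.τ F.hτ)

theorem index_dvd {m : ℕ} (hm : 0 < m) (hlm : Lev F m) (hmin : ∀ j, 0 < j → Lev F j → m ≤ j) :
    m ∣ D.II.relIndex D.K.toAddSubgroup := by
  apply lev_dvd F hm hlm hmin
  have h1 := AddSubgroup.nsmul_index_mem (D.II.addSubgroupOf D.K.toAddSubgroup)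
    (⟨F.τ, τ_mem F D⟩ : D.K.toAddSubgroup)
  rw [AddSubgroup.mem_addSubgroupOf] at h1
  obtain ⟨z, hz⟩ := h1
  refine ⟨z, ?_⟩
  have hz' : (1 - F.A).mulVec z = (D.II.relIndex D.K.toAddSubgroup) • F.τ := hz
  rw [Matrix.sub_mulVec, Matrix.one_mulVec] at hz'
  rw [natCast_zsmul, ← hz']
  abel

theorem rel_mul : D.JJ.relIndex D.II * D.II.relIndex D.K.toAddSubgroup =
    D.JJ.relIndex D.K.toAddSubgroup :=
  AddSubgroup.relIndex_mul_relIndex _ _ _ D.JJ_le_II (D.II_le_K F.hN F.hA)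

/-- cast as additive hom -/
def cvH (r : ℕ) : (Fin r → ℤ) →ₗ[ℤ] (Fin r → ℝ) where
  toFun := cv
  map_add' := cv_add
  map_smul' k x := by
    rw [cv_zsmul]
    funext i
    simp

theorem cvH_inj (r : ℕ) : Function.Injective (cvH r) := fun _ _ h => cv_inj h

/-- fixed integer vectors -/
def FixL : Submodule ℤ (Fin n → ℤ) := LinearMap.ker (Matrix.toLin' (1 - F.A))

theorem mem_FixL (x : Fin n → ℤ) : x ∈ FixL F ↔ F.A.mulVec x = x := by
  rw [FixL, LinearMap.mem_ker, Matrix.toLin'_apply, Matrix.sub_mulVec, Matrix.one_mulVec,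
    sub_eq_zero]
  exact eq_comm

/-- the projected fixed lattice (integer version) -/
def LZ : Submodule ℤ (Fin r → ℤ) := (FixL F).map (Matrix.toLin' D.Φ)

/-- the projected fixed lattice -/
def LR : Submodule ℤ (Fin r → ℝ) := (LZ F D).map (cvH r)

theorem mem_LR (x : Fin r → ℝ) : x ∈ LR F D ↔ ∃ f : Fin n → ℤ, F.A.mulVec f = f ∧
    cv (D.Φ.mulVec f) = x := by
  constructor
  · rintro ⟨_, ⟨f, hf, rfl⟩, rfl⟩
    exact ⟨f, (mem_FixL F f).1 hf, rfl⟩
  · rintro ⟨f, hf, rfl⟩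
    exact ⟨_, ⟨f, (mem_FixL F f).2 hf, rfl⟩, rfl⟩

/-- the standard lattice -/
abbrev L0 (r : ℕ) : Submodule ℤ (Fin r → ℝ) := Submodule.span ℤ (Set.range (Pi.basisFun ℝ (Fin r)))

theorem L0_eq : L0 r = (⊤ : Submodule ℤ (Fin r → ℤ)).map (cvH r) := by
  ext x
  rw [(Pi.basisFun ℝ (Fin r)).mem_span_iff_repr_mem ℤ x]
  constructor
  · intro h
    choose z hz using h
    refine ⟨z, Submodule.mem_top, ?_⟩
    funext i
    have := hz i
    rw [Pi.basisFun_repr] at this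
    rw [← this]
    rfl
  · rintro ⟨z, _, rfl⟩ i
    exact ⟨z i, rfl⟩

theorem covol_L0 : ZLattice.covolume (L0 r) = 1 := by
  rw [ZLattice.covolume_eq_det (L0 r) ((Pi.basisFun ℝ (Fin r)).restrictScalars ℤ)]
  have : (Matrix.of ((↑) ∘ ((Pi.basisFun ℝ (Fin r)).restrictScalars ℤ)) : Matrix (Fin r) (Fin r) ℝ)
      = 1 := by
    ext i j
    rw [Matrix.of_apply, Function.comp_apply, Module.Basis.restrictScalars_apply,
      Pi.basisFun_apply, Pi.single_apply, Matrix.one_apply]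
    simp [eq_comm]
  rw [this, Matrix.det_one, abs_one]

theorem LR_le : LR F D ≤ L0 r := by
  rw [L0_eq]
  exact Submodule.map_mono le_top

instance instDisc : DiscreteTopology (LR F D) :=
  DiscreteTopology.of_subset (s := (L0 r : Set (Fin r → ℝ)))
    (inferInstance : DiscreteTopology (L0 r)) (LR_le F D)

theorem N_mem (y : Fin r → ℤ) : (F.N : ℝ) • cv y ∈ LR F D := by
  rw [mem_LR]
  refine ⟨D.J.mulVec y, ?_, ?_⟩
  · rw [Matrix.mulVec_mulVec, D.AJ F.hA]
  · rw [Matrix.mulVec_mulVec, D.hΦJ, Matrix.smul_mulVec, Matrix.one_mulVec, cv_zsmul,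
      Int.cast_natCast]

instance instZL : IsZLattice ℝ (LR F D) where
  span_top := by
    rw [eq_top_iff, ← (Pi.basisFun ℝ (Fin r)).span_eq, Submodule.span_le]
    rintro _ ⟨i, rfl⟩
    have hN : (F.N : ℝ) ≠ 0 := by exact_mod_cast F.hN.ne'
    have h1 := N_mem F D (Pi.single i 1)
    have h2 : cv (Pi.single i (1 : ℤ)) = Pi.basisFun ℝ (Fin r) i := by
      rw [Pi.basisFun_apply]
      funext j
      show ((Pi.single i (1 : ℤ) : Fin r → ℤ) j : ℝ) = (Pi.single i (1 : ℝ) : Fin r → ℝ) j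
      rw [Pi.single_apply, Pi.single_apply]
      split_ifs <;> simp
    rw [h2] at h1
    have h3 : (F.N : ℝ)⁻¹ • ((F.N : ℝ) • Pi.basisFun ℝ (Fin r) i) ∈
        Submodule.span ℝ (LR F D : Set (Fin r → ℝ)) :=
      Submodule.smul_mem _ _ (Submodule.subset_span h1)
    rw [smul_smul, inv_mul_cancel₀ hN, one_smul] at h3
    exact h3

theorem Φ_surj : Function.Surjective (Matrix.toLin' D.Φ) := by
  intro y
  exact ⟨D.S.mulVec y, by rw [Matrix.toLin'_apply, Matrix.mulVec_mulVec, D.hΦS, Matrix.one_mulVec]⟩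

theorem index_LZ : (LZ F D).toAddSubgroup.index = D.JJ.relIndex D.II := by
  have h1 : ((LZ F D).toAddSubgroup.comap (Matrix.toLin' D.Φ).toAddMonoidHom).index =
      (LZ F D).toAddSubgroup.index := AddSubgroup.index_comap_of_surjective _ (Φ_surj F D)
  have h2 : (D.JJ.comap (Matrix.toLin' (1 - F.A)).toAddMonoidHom).index = D.JJ.relIndex D.II :=
    AddSubgroup.index_comap _ _
  rw [← h1, ← h2]
  congr 1
  ext x
  rw [AddSubgroup.mem_comap, AddSubgroup.mem_comap]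
  constructor
  · rintro ⟨f, hf, hfx⟩
    have hf' := (mem_FixL F f).1 hf
    have hfx' : D.Φ.mulVec f = D.Φ.mulVec x := hfx
    refine ⟨x - f, ?_, ?_⟩
    · show x - f ∈ D.K
      rw [D.mem_K, Matrix.mulVec_sub, hfx', sub_self]
    · show (1 - F.A).mulVec (x - f) = (1 - F.A).mulVec x
      rw [Matrix.mulVec_sub, Matrix.sub_mulVec (x := f), Matrix.one_mulVec, hf', sub_self, sub_zero]
  · rintro ⟨y, hy, hyx⟩
    have hy' : D.Φ.mulVec y = 0 := (D.mem_K y).1 hy
    have hyx' : (1 - F.A).mulVec y = (1 - F.A).mulVec x := hyx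
    refine ⟨x - y, ?_, ?_⟩
    · show x - y ∈ LinearMap.ker (Matrix.toLin' (1 - F.A))
      rw [LinearMap.mem_ker, Matrix.toLin'_apply, Matrix.mulVec_sub, hyx', sub_self]
    · show D.Φ.mulVec (x - y) = D.Φ.mulVec x
      rw [Matrix.mulVec_sub, hy', sub_zero]

theorem covol_LR : ZLattice.covolume (LR F D) = (D.JJ.relIndex D.II : ℝ) := by
  have h1 := ZLattice.covolume_div_covolume_eq_relIndex (LR F D) (L0 r) (LR_le F D)
  rw [covol_L0, div_one] at h1
  rw [h1, ← index_LZ F D, ← AddSubgroup.relIndex_top_right]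
  have h2 : (LR F D).toAddSubgroup = (LZ F D).toAddSubgroup.map (cvH r).toAddMonoidHom := rfl
  have h3 : (L0 r).toAddSubgroup = (⊤ : AddSubgroup (Fin r → ℤ)).map (cvH r).toAddMonoidHom := by
    rw [L0_eq]; rfl
  rw [h2, h3, AddSubgroup.relIndex_map_map_of_injective _ _ (cvH_inj r)]

end Pool.Agent.H160R3.Geo
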