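import Pool.Agent.H160R3.Geo2

set_option autoImplicit false
open scoped Pointwise

namespace Pool.Agent.H160R3.Geo

open Matrix Finset Pool.Agent.H160R3.Alg MeasureTheory

variable {n : ℕ} (F : Aff n) {r : ℕ} (D : Dat n F.N r F.A)

/-- the fixed polytope -/
def PT (P : Set (Fin n → ℝ)) : Set (Fin n → ℝ) := {x | x ∈ P ∧ F.T x = x}

/-- the projected polytope -/
def QQ (P : Set (Fin n → ℝ)) : Set (Fin r → ℝ) := (fun x => (cm D.Φ).mulVec x) '' P

/-- membership criterion -/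
theorem mem_crit {P : Set (Fin n → ℝ)} (hP : Convex ℝ P) (hinv : ∀ x ∈ P, F.T x ∈ P)
    {m : ℕ} (hm : 0 < m) (z : Fin n → ℤ) :
    cv z ∈ (m : ℝ) • PT F P ↔ (F.A.mulVec z + (m : ℤ) • F.τ = z ∧
      cv (D.Φ.mulVec z) ∈ (m : ℝ) • QQ F D P) := by
  have hm' : (m : ℝ) ≠ 0 := by exact_mod_cast hm.ne'
  rw [Set.mem_smul_set_iff_inv_smul_mem₀ hm', Set.mem_smul_set_iff_inv_smul_mem₀ hm',
    ← lev_iff, fixk_scale F hm]
  constructor
  · rintro ⟨h1, h2⟩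
    refine ⟨h2, ?_⟩
    refine ⟨_, h1, ?_⟩
    show (cm D.Φ).mulVec ((m : ℝ)⁻¹ • cv z) = _
    rw [Matrix.mulVec_smul, cm_mulVec]
  · rintro ⟨h1, ⟨x, hx, hxz⟩⟩
    refine ⟨?_, h1⟩
    have h2 : (m : ℝ)⁻¹ • cv z = F.avg x := by
      apply fixed_inj F D h1 (F.T_avg x)
      rw [Φavg F D, Matrix.mulVec_smul, cm_mulVec]
      exact hxz.symm
    rw [h2]
    exact F.avg_mem hP hinv hx

/-- the shifted polytope -/
def SS (P : Set (Fin n → ℝ)) (ind : ℕ) (z0 : Fin n → ℤ) : Set (Fin r → ℝ) :=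
  (fun q => (ind : ℝ) • q - cv (D.Φ.mulVec z0)) '' QQ F D P

theorem ncard_eq {P : Set (Fin n → ℝ)} (hP : Convex ℝ P) (hinv : ∀ x ∈ P, F.T x ∈ P)
    {ind : ℕ} (hind : 0 < ind) {z0 : Fin n → ℤ} (hz0 : F.A.mulVec z0 + (ind : ℤ) • F.τ = z0)
    {k : ℕ} (hk : 0 < k) :
    Set.ncard {z : Fin n → ℤ | cv z ∈ ((k * ind : ℕ) : ℝ) • PT F P} =
      Nat.card (SS F D P ind z0 ∩ (k : ℝ)⁻¹ • (LR F D : Set (Fin r → ℝ)) : Set (Fin r → ℝ)) := by
  have hk' : (k : ℝ) ≠ 0 := by exact_mod_cast hk.ne'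
  have hind' : (ind : ℝ) ≠ 0 := by exact_mod_cast hind.ne'
  have hm : 0 < k * ind := Nat.mul_pos hk hind
  rw [← Nat.card_coe_set_eq]
  have hA0 : F.A.mulVec z0 = z0 - (ind : ℤ) • F.τ := eq_sub_of_add_eq hz0
  let φ : {z : Fin n → ℤ | cv z ∈ ((k * ind : ℕ) : ℝ) • PT F P} →
      (SS F D P ind z0 ∩ (k : ℝ)⁻¹ • (LR F D : Set (Fin r → ℝ)) : Set (Fin r → ℝ)) := fun z =>
    ⟨(k : ℝ)⁻¹ • cv (D.Φ.mulVec (z.1 - (k : ℤ) • z0)), by
      obtain ⟨z, hz⟩ := z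
      have hz' := (mem_crit F D hP hinv hm z).1 hz
      obtain ⟨h1, h2⟩ := hz'
      have h1' : F.A.mulVec z = z - ((k * ind : ℕ) : ℤ) • F.τ := eq_sub_of_add_eq h1
      constructor
      · rw [Set.mem_smul_set] at h2
        obtain ⟨q, hq, hqz⟩ := h2
        refine ⟨q, hq, ?_⟩
        show (ind : ℝ) • q - cv (D.Φ.mulVec z0) = (k : ℝ)⁻¹ • cv (D.Φ.mulVec (z - (k : ℤ) • z0))
        rw [Matrix.mulVec_sub, Matrix.mulVec_smul, cv_sub, cv_zsmul, smul_sub, ← hqz, smul_smul,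
          smul_smul, Int.cast_natCast, inv_mul_cancel₀ hk', one_smul]
        congr 2
        push_cast
        field_simp
      · apply Set.smul_mem_smul_set
        show cv (D.Φ.mulVec (z - (k : ℤ) • z0)) ∈ LR F D
        rw [mem_LR]
        refine ⟨z - (k : ℤ) • z0, ?_, rfl⟩
        rw [Matrix.mulVec_sub, Matrix.mulVec_smul, h1', hA0]
        push_cast
        rw [smul_sub, smul_smul]
        abel⟩
  apply Nat.card_congr (Equiv.ofBijective φ ⟨?_, ?_⟩)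
  · rintro ⟨z, hz⟩ ⟨w, hw⟩ hzw
    have hz' := ((mem_crit F D hP hinv hm z).1 hz).1
    have hw' := ((mem_crit F D hP hinv hm w).1 hw).1
    have h1 : (k : ℝ)⁻¹ • cv (D.Φ.mulVec (z - (k : ℤ) • z0)) =
      (k : ℝ)⁻¹ • cv (D.Φ.mulVec (w - (k : ℤ) • z0)) := congrArg Subtype.val hzw
    have h2 := cv_inj (smul_right_injective _ (inv_ne_zero hk') h1)
    rw [Matrix.mulVec_sub, Matrix.mulVec_sub] at h2
    have h3 : D.Φ.mulVec z = D.Φ.mulVec w := sub_left_injective h2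
    apply Subtype.ext
    show z = w
    have h4 : z - w = 0 := by
      apply D.fixed_zero F.hN
      · rw [D.mem_K, Matrix.mulVec_sub, h3, sub_self]
      · rw [Matrix.mulVec_sub, eq_sub_of_add_eq hz', eq_sub_of_add_eq hw']
        abel
    exact sub_eq_zero.1 h4
  · rintro ⟨w, ⟨⟨q, hq, hqw⟩, ⟨l, hl, hlw⟩⟩⟩
    obtain ⟨f, hf, hfl⟩ := (mem_LR F D l).1 hl
    have hqw' : (ind : ℝ) • q - cv (D.Φ.mulVec z0) = w := hqw
    have hlw' : (k : ℝ)⁻¹ • l = w := hlw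
    have hmem : cv (f + (k : ℤ) • z0) ∈ ((k * ind : ℕ) : ℝ) • PT F P := by
      rw [mem_crit F D hP hinv hm]
      constructor
      · rw [Matrix.mulVec_add, Matrix.mulVec_smul, hf, hA0]
        push_cast
        rw [smul_sub, smul_smul]
        abel
      · rw [Set.mem_smul_set]
        refine ⟨q, hq, ?_⟩
        rw [Matrix.mulVec_add, Matrix.mulVec_smul, cv_add, cv_zsmul, hfl, Int.cast_natCast]
        have e1 : l = (k : ℝ) • w := by rw [← hlw', smul_smul, mul_inv_cancel₀ hk', one_smul]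
        rw [e1, ← hqw', ← smul_add, sub_add_cancel, smul_smul]
        push_cast
        rfl
    refine ⟨⟨f + (k : ℤ) • z0, hmem⟩, ?_⟩
    apply Subtype.ext
    show (k : ℝ)⁻¹ • cv (D.Φ.mulVec (f + (k : ℤ) • z0 - (k : ℤ) • z0)) = w
    rw [add_sub_cancel_right, hfl, hlw']

theorem QQ_hull (S : Finset (Fin n → ℤ)) :
    ∃ (k : ℕ) (p : Fin k → Fin r → ℤ), QQ F D (convexHull ℝ (cv '' (S : Set (Fin n → ℤ)))) =
      convexHull ℝ (Set.range fun s => fun i => ((p s i : ℤ) : ℝ)) := by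
  refine ⟨S.card, fun s => D.Φ.mulVec (S.equivFin.symm s).1, ?_⟩
  have h1 : QQ F D (convexHull ℝ (cv '' (S : Set (Fin n → ℤ)))) =
      (Matrix.toLin' (cm D.Φ)) '' (convexHull ℝ (cv '' (S : Set (Fin n → ℤ)))) := rfl
  rw [h1, LinearMap.image_convexHull]
  congr 1
  ext x
  constructor
  · rintro ⟨_, ⟨z, hz, rfl⟩, rfl⟩
    refine ⟨S.equivFin ⟨z, hz⟩, ?_⟩
    show cv (D.Φ.mulVec (S.equivFin.symm (S.equivFin ⟨z, hz⟩)).1) = (cm D.Φ).mulVec (cv z)
    rw [Equiv.symm_apply_apply, cm_mulVec]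
  · rintro ⟨s, rfl⟩
    refine ⟨cv (S.equivFin.symm s).1, ⟨_, (S.equivFin.symm s).2, rfl⟩, ?_⟩
    show (cm D.Φ).mulVec (cv _) = cv (D.Φ.mulVec (S.equivFin.symm s).1)
    rw [cm_mulVec]

theorem SS_eq (P : Set (Fin n → ℝ)) (ind : ℕ) (z0 : Fin n → ℤ) :
    SS F D P ind z0 = (fun x => x + -(cv (D.Φ.mulVec z0))) '' ((ind : ℝ) • QQ F D P) := by
  rw [SS, ← Set.image_smul, Set.image_image]
  apply Set.image_congr
  intro q _
  rw [sub_eq_add_neg]

theorem vol_SS (P : Set (Fin n → ℝ)) (ind : ℕ) (z0 : Fin n → ℤ) :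
    volume.real (SS F D P ind z0) = (ind : ℝ) ^ r * volume.real (QQ F D P) := by
  rw [SS_eq, measureReal_def, Set.image_add_right, measure_preimage_add_right,
    Measure.addHaar_smul_of_nonneg _ (Nat.cast_nonneg ind), ENNReal.toReal_mul,
    ENNReal.toReal_ofReal (by positivity), measureReal_def, Module.finrank_fintype_fun_eq_card,
    Fintype.card_fin]

/-- main limit -/
theorem main_limit {P : Set (Fin n → ℝ)} {S : Finset (Fin n → ℤ)}
    (hPS : P = convexHull ℝ (cv '' (S : Set (Fin n → ℤ)))) (hinv : ∀ x ∈ P, F.T x ∈ P)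
    {ind : ℕ} (hind : 0 < ind) (hlev : Lev F ind) (hmin : ∀ j, 0 < j → Lev F j → ind ≤ j) :
    ∃ N : ℕ, Filter.Tendsto
        (fun m : ℕ => (r.factorial : ℝ) *
          ((Set.ncard {z : Fin n → ℤ | cv z ∈ (((m * ind : ℕ) : ℝ)) • PT F P} : ℝ) /
            (((m * ind : ℕ) : ℝ)) ^ r) * ((D.JJ.relIndex D.K.toAddSubgroup : ℕ) : ℝ) / (ind : ℝ))
        Filter.atTop (nhds (N : ℝ)) := by
  have hP : Convex ℝ P := by rw [hPS]; exact convex_convexHull ℝ _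
  obtain ⟨z0, hz0⟩ := hlev
  obtain ⟨κ, hκ⟩ := index_dvd F D hind ⟨z0, hz0⟩ hmin
  obtain ⟨k0, p, hp⟩ := QQ_hull F D S
  rw [← hPS] at hp
  obtain ⟨N0, hN0⟩ := Pool.Agent.H160R3.Tri.vol_integral p
  rw [← hp] at hN0
  have hind' : (ind : ℝ) ≠ 0 := by exact_mod_cast hind.ne'
  have hQc : IsCompact (QQ F D P) := by
    rw [hp]; exact (Set.finite_range _).isCompact_convexHull ℝ
  have hQv : Convex ℝ (QQ F D P) := by
    rw [hp]; exact convex_convexHull ℝ _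
  have hSc : IsCompact (SS F D P ind z0) := by
    apply hQc.image
    fun_prop
  have hSv : Convex ℝ (SS F D P ind z0) := by
    rw [SS_eq]
    have := (hQv.smul (ind : ℝ)).translate_preimage_left (cv (D.Φ.mulVec z0))
    rw [Set.image_add_right]
    simpa using this
  have hlim := ZLattice.covolume.tendsto_card_div_pow (LR F D) (IsZLattice.basis (LR F D))
    hSc.isBounded hSc.isClosed.measurableSet (hSv.addHaar_frontier volume)
  rw [Fintype.card_fin, vol_SS, covol_LR] at hlim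
  have hrel := rel_mul F D
  have hc : (D.JJ.relIndex D.II : ℝ) ≠ 0 := by
    rw [← covol_LR]
    exact ZLattice.covolume_ne_zero _ _
  refine ⟨N0 * κ, ?_⟩
  have hlim2 := (hlim.const_mul ((r.factorial : ℝ) * ((ind : ℝ) ^ r)⁻¹)).mul_const
    (((D.JJ.relIndex D.K.toAddSubgroup : ℕ) : ℝ) / (ind : ℝ))
  have hval : (r.factorial : ℝ) * ((ind : ℝ) ^ r)⁻¹ *
      ((ind : ℝ) ^ r * volume.real (QQ F D P) / (D.JJ.relIndex D.II : ℝ)) *
      (((D.JJ.relIndex D.K.toAddSubgroup : ℕ) : ℝ) / (ind : ℝ)) = ((N0 * κ : ℕ) : ℝ) := by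
    rw [← hrel, hκ]
    push_cast
    rw [← hN0]
    field_simp
  rw [hval] at hlim2
  refine hlim2.congr' ?_
  filter_upwards [Filter.eventually_gt_atTop 0] with k hk
  have hk' : (k : ℝ) ≠ 0 := by exact_mod_cast hk.ne'
  rw [ncard_eq F D hP hinv hind hz0 hk]
  push_cast
  rw [mul_pow]
  field_simp

end Pool.Agent.H160R3.Geo
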