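import Mathlib

set_option autoImplicit false

namespace Pool.Agent.H160R3

open PowerSeries
open scoped Pointwise

/-- counting series of a height function -/
noncomputable def ser {α : Type*} (h : α → ℕ) : PowerSeries ℤ :=
  PowerSeries.mk fun m => (Nat.card {a : α // h a = m} : ℤ)

theorem coeff_ser {α : Type*} (h : α → ℕ) (m : ℕ) :
    PowerSeries.coeff m (ser h) = (Nat.card {a : α // h a = m} : ℤ) := by
  simp [ser]

theorem ser_congr {α β : Type*} (ha : α → ℕ) (hb : β → ℕ) (e : α ≃ β)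
    (he : ∀ a, hb (e a) = ha a) : ser ha = ser hb := by
  ext m
  rw [coeff_ser, coeff_ser]
  congr 1
  apply Nat.card_congr
  exact e.subtypeEquiv (fun a => by rw [he])

/-- finite fibres -/
def FF {α : Type*} (h : α → ℕ) : Prop := ∀ m, Finite {a : α // h a = m}

theorem FF_congr {α β : Type*} {ha : α → ℕ} {hb : β → ℕ} (e : α ≃ β)
    (he : ∀ a, hb (e a) = ha a) (hf : FF ha) : FF hb := by
  intro m
  have := hf m
  exact Finite.of_equiv _ (e.subtypeEquiv (p := fun a => ha a = m) (q := fun b => hb b = m)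
    (fun a => by rw [he]))

def prodFiberEquiv {α β : Type*} (ha : α → ℕ) (hb : β → ℕ) (m : ℕ) :
    {p : α × β // ha p.1 + hb p.2 = m} ≃
      (Σ ij : {ij : ℕ × ℕ // ij ∈ Finset.HasAntidiagonal.antidiagonal m},
        {a : α // ha a = ij.1.1} × {b : β // hb b = ij.1.2}) where
  toFun p := ⟨⟨(ha p.1.1, hb p.1.2), by rw [Finset.HasAntidiagonal.mem_antidiagonal]; exact p.2⟩,
    ⟨p.1.1, rfl⟩, ⟨p.1.2, rfl⟩⟩
  invFun q := ⟨(q.2.1.1, q.2.2.1), by
    have h := q.1.2
    rw [Finset.HasAntidiagonal.mem_antidiagonal] at h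
    have h1 := q.2.1.2
    have h2 := q.2.2.2
    show ha q.2.1.1 + hb q.2.2.1 = m
    omega⟩
  left_inv p := by simp
  right_inv := by
    rintro ⟨⟨⟨i, j⟩, hij⟩, ⟨a, ha'⟩, ⟨b, hb'⟩⟩
    simp only at ha' hb'
    subst ha'
    subst hb'
    rfl

theorem FF_prod {α β : Type*} {ha : α → ℕ} {hb : β → ℕ} (fa : FF ha) (fb : FF hb) :
    FF (fun p : α × β => ha p.1 + hb p.2) := by
  intro m
  have h1 : ∀ i, Finite {a : α // ha a = i} := fa
  have h2 : ∀ i, Finite {b : β // hb b = i} := fb
  exact Finite.of_equiv _ (prodFiberEquiv ha hb m).symm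

theorem ser_prod {α β : Type*} {ha : α → ℕ} {hb : β → ℕ} (fa : FF ha) (fb : FF hb) :
    ser (fun p : α × β => ha p.1 + hb p.2) = ser ha * ser hb := by
  ext m
  rw [coeff_ser, PowerSeries.coeff_mul, Nat.card_congr (prodFiberEquiv ha hb m)]
  have h1 : ∀ i, Finite {a : α // ha a = i} := fa
  have h2 : ∀ i, Finite {b : β // hb b = i} := fb
  rw [Nat.card_sigma]
  push_cast
  rw [← Finset.sum_coe_sort (Finset.HasAntidiagonal.antidiagonal m)]
  apply Finset.sum_congr rfl
  intro x _
  rw [Nat.card_prod, coeff_ser, coeff_ser]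
  push_cast
  rfl

theorem FF_sum {α β : Type*} {ha : α → ℕ} {hb : β → ℕ} (fa : FF ha) (fb : FF hb) :
    FF (Sum.elim ha hb) := by
  intro m
  have h1 : Finite {a : α // Sum.elim ha hb (Sum.inl a) = m} := fa m
  have h2 : Finite {b : β // Sum.elim ha hb (Sum.inr b) = m} := fb m
  exact Finite.of_equiv _ (Equiv.subtypeSum (p := fun x => Sum.elim ha hb x = m)).symm

theorem ser_sum {α β : Type*} {ha : α → ℕ} {hb : β → ℕ} (fa : FF ha) (fb : FF hb) :
    ser (Sum.elim ha hb) = ser ha + ser hb := by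
  ext m
  have h1 := fa m
  have h2 := fb m
  rw [coeff_ser, map_add, coeff_ser, coeff_ser,
    Nat.card_congr (Equiv.subtypeSum (p := fun x => Sum.elim ha hb x = m))]
  have e : Nat.card ({a : α // Sum.elim ha hb (Sum.inl a) = m} ⊕
      {b : β // Sum.elim ha hb (Sum.inr b) = m})
      = Nat.card {a : α // ha a = m} + Nat.card {b : β // hb b = m} := by
    rw [← Nat.card_sum]; rfl
  rw [e]; push_cast; rfl

theorem FF_nat {k : ℕ} (hk : 0 < k) (c : ℕ) : FF (fun n : ℕ => k * n + c) := by
  intro m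
  apply Set.Finite.subset (Set.finite_Iic m)
  intro n hn
  have hn' : k * n + c = m := hn
  show n ≤ m
  nlinarith

theorem ser_nat {k : ℕ} (hk : 0 < k) (c : ℕ) :
    ser (fun n : ℕ => k * n + c) * (1 - X ^ k) = X ^ c := by
  have h0 : ∀ m, (Nat.card {n : ℕ // k * n + c = m} : ℤ) =
      if c ≤ m ∧ k ∣ (m - c) then 1 else 0 := by
    intro m
    split_ifs with h
    · obtain ⟨h1, t, ht⟩ := h
      have : Nat.card {n : ℕ // k * n + c = m} = 1 := by
        rw [Nat.card_eq_one_iff_unique]
        refine ⟨⟨fun a b => ?_⟩, ⟨⟨t, by omega⟩⟩⟩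
        apply Subtype.ext
        have ha := a.2
        have hb := b.2
        have : k * a.1 = k * b.1 := by omega
        exact Nat.eq_of_mul_eq_mul_left hk this
      rw [this]; rfl
    · have : IsEmpty {n : ℕ // k * n + c = m} := by
        refine ⟨fun a => h ⟨?_, a.1, ?_⟩⟩
        · have := a.2; omega
        · have := a.2; omega
      simp
  ext m
  rw [mul_sub, mul_one, map_sub, PowerSeries.coeff_mul_X_pow', coeff_ser, h0, PowerSeries.coeff_X_pow]
  have e1 : (if k ≤ m then (PowerSeries.coeff (m - k)) (ser fun n => k * n + c) else 0)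
      = if c ≤ m ∧ k ∣ (m - c) ∧ m ≠ c then 1 else 0 := by
    by_cases hkm : k ≤ m
    · rw [if_pos hkm, coeff_ser, h0]
      by_cases h8 : c ≤ m - k ∧ k ∣ m - k - c
      · rw [if_pos h8, if_pos]
        refine ⟨by omega, ?_, by omega⟩
        obtain ⟨t, ht⟩ := h8.2
        exact ⟨t + 1, by rw [mul_add, ← ht]; omega⟩
      · rw [if_neg h8, if_neg]
        rintro ⟨h9, ⟨t, ht⟩, h10⟩
        apply h8
        rcases t with _ | t
        · exfalso; omega
        · rw [mul_add, mul_one] at ht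
          exact ⟨by omega, t, by omega⟩
    · rw [if_neg hkm, if_neg]
      rintro ⟨h9, ⟨t, ht⟩, h10⟩
      rcases t with _ | t
      · exfalso; omega
      · rw [mul_add, mul_one] at ht
        omega
  rw [e1]
  by_cases h1 : m = c
  · subst h1; simp
  · by_cases h2 : c ≤ m ∧ k ∣ m - c
    · rw [if_pos h2, if_pos ⟨h2.1, h2.2, h1⟩, if_neg h1]; norm_num
    · rw [if_neg h2, if_neg (fun h => h2 ⟨h.1, h.2.1⟩), if_neg h1]; norm_num

theorem FF_shift {α : Type*} {h : α → ℕ} (c : ℕ) (hf : FF h) : FF (fun a => h a + c) := by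
  intro m
  by_cases hc : c ≤ m
  · have := hf (m - c)
    apply Finite.of_injective
      (fun a : {a : α // h a + c = m} => (⟨a.1, by have := a.2; omega⟩ : {a : α // h a = m - c}))
    intro a b hab
    apply Subtype.ext
    simpa using hab
  · have : IsEmpty {a : α // h a + c = m} := ⟨fun a => hc (by have := a.2; omega)⟩
    infer_instance

theorem ser_shift {α : Type*} (h : α → ℕ) (c : ℕ) :
    ser (fun a => h a + c) = X ^ c * ser h := by
  ext m
  rw [PowerSeries.coeff_X_pow_mul', coeff_ser]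
  split_ifs with hc
  · rw [coeff_ser]
    congr 1
    apply Nat.card_congr
    exact (Equiv.refl α).subtypeEquiv (fun a => by simp only [Equiv.refl_apply]; omega)
  · have : IsEmpty {a : α // h a + c = m} := ⟨fun a => hc (by have := a.2; omega)⟩
    simp

theorem FF_id : FF (fun n : ℕ => n) := by
  have := FF_nat (k := 1) one_pos 0
  simpa using this

theorem ser_id : ser (fun n : ℕ => n) * (1 - X) = 1 := by
  have := ser_nat (k := 1) one_pos 0
  simpa using this

theorem FF_mul {k : ℕ} (hk : 0 < k) : FF (fun n : ℕ => k * n) := by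
  have := FF_nat (k := k) hk 0
  simpa using this

theorem ser_mul {k : ℕ} (hk : 0 < k) : ser (fun n : ℕ => k * n) * (1 - X ^ k) = 1 := by
  have := ser_nat (k := k) hk 0
  simpa using this

/-- weighted combination lies in the dilated hull -/
theorem mem_smul_hull {E : Type*} [AddCommGroup E] [Module ℝ E] {ι : Type*} [Fintype ι]
    [Nonempty ι] (v : ι → E) (c : ι → ℝ) (hc : ∀ i, 0 ≤ c i) (m : ℝ) (hm : ∑ i, c i = m) :
    ∑ i, c i • v i ∈ m • convexHull ℝ (Set.range v) := by
  have hm0 : 0 ≤ m := hm ▸ Finset.sum_nonneg (fun i _ => hc i)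
  rcases hm0.eq_or_lt with h0 | h0
  · have hz : ∀ i, c i = 0 := by
      intro i
      have := (Finset.sum_eq_zero_iff_of_nonneg (fun i _ => hc i)).1 (hm.trans h0.symm)
      exact this i (Finset.mem_univ i)
    have : ∑ i, c i • v i = 0 := Finset.sum_eq_zero (fun i _ => by rw [hz i, zero_smul])
    rw [this, ← h0]
    refine ⟨v (Classical.arbitrary ι), subset_convexHull ℝ _ ⟨_, rfl⟩, ?_⟩
    simp
  · refine ⟨∑ i, (c i / m) • v i, ?_, ?_⟩
    · apply (convex_convexHull ℝ (Set.range v)).sum_mem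
      · intro i _; exact div_nonneg (hc i) h0.le
      · rw [← Finset.sum_div, hm, div_self h0.ne']
      · intro i _; exact subset_convexHull ℝ _ ⟨i, rfl⟩
    · show m • (∑ i, (c i / m) • v i) = _
      rw [Finset.smul_sum]
      apply Finset.sum_congr rfl
      intro i _
      rw [smul_smul, mul_div_cancel₀ _ h0.ne']

theorem exists_of_mem_smul_hull {E : Type*} [AddCommGroup E] [Module ℝ E] {ι : Type*} [Fintype ι]
    (v : ι → E) (m : ℝ) (hm : 0 ≤ m) (x : E) (hx : x ∈ m • convexHull ℝ (Set.range v)) :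
    ∃ c : ι → ℝ, (∀ i, 0 ≤ c i) ∧ ∑ i, c i = m ∧ x = ∑ i, c i • v i := by
  obtain ⟨y, hy, rfl⟩ := hx
  rw [convexHull_range_eq_exists_affineCombination] at hy
  obtain ⟨s, w, hw0, hw1, rfl⟩ := hy
  classical
  refine ⟨fun i => if i ∈ s then m * w i else 0, ?_, ?_, ?_⟩
  · intro i
    show 0 ≤ if i ∈ s then m * w i else 0
    split_ifs with h
    · exact mul_nonneg hm (hw0 i h)
    · exact le_rfl
  · rw [Finset.sum_ite_mem, Finset.univ_inter, ← Finset.mul_sum, hw1, mul_one]
  · simp only [ite_smul, zero_smul]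
    rw [Finset.sum_ite_mem, Finset.univ_inter,
      Finset.affineCombination_eq_linear_combination _ _ _ hw1, Finset.smul_sum]
    apply Finset.sum_congr rfl
    intro i _
    rw [smul_smul]

end Pool.Agent.H160R3
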