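import Mathlib

set_option autoImplicit false
open MeasureTheory
open scoped ENNReal

namespace Pool.Agent.H160R3.Tri

/-- volume of the open simplex (proof taken from Pool.Agent.VP.JA1) -/
theorem vol_simplex_aux (n : ℕ) : ∀ r : ℝ, 0 < r →
    volume {c : Fin n → ℝ | (∀ i, 0 < c i) ∧ ∑ i, c i < r} =
      ENNReal.ofReal (r ^ n / (n.factorial : ℝ)) := by
  induction n with
  | zero =>
    intro r hr
    have : {c : Fin 0 → ℝ | (∀ i, 0 < c i) ∧ ∑ i, c i < r} = Set.univ := by
      ext c; simp [hr]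
    rw [this]
    simp [MeasureTheory.Measure.volume_pi_eq_dirac (0 : Fin 0 → ℝ)]
  | succ n ih =>
    intro r hr
    let T : Set (ℝ × (Fin n → ℝ)) := {q | 0 < q.1 ∧ (∀ i, 0 < q.2 i) ∧ q.1 + ∑ i, q.2 i < r}
    have hT : MeasurableSet T := by
      have h1 : IsOpen T := by
        have e1 : T = {q | 0 < q.1} ∩ (⋂ i, {q : ℝ × (Fin n → ℝ) | 0 < q.2 i}) ∩
            {q | q.1 + ∑ i, q.2 i < r} := by
          ext q; simp [T, and_assoc]
        rw [e1]
        refine IsOpen.inter (IsOpen.inter ?_ ?_) ?_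
        · exact isOpen_lt continuous_const continuous_fst
        · refine isOpen_iInter_of_finite fun i => ?_
          exact isOpen_lt continuous_const ((continuous_apply i).comp continuous_snd)
        · refine isOpen_lt ?_ continuous_const
          fun_prop
      exact h1.measurableSet
    have hmp := MeasureTheory.volume_preserving_piFinSuccAbove (fun _ : Fin (n + 1) => ℝ) 0
    have hpre : {c : Fin (n + 1) → ℝ | (∀ i, 0 < c i) ∧ ∑ i, c i < r} =
        (MeasurableEquiv.piFinSuccAbove (fun _ : Fin (n + 1) => ℝ) 0) ⁻¹' T := by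
      ext c
      simp only [Set.mem_setOf_eq, Set.mem_preimage, T, MeasurableEquiv.piFinSuccAbove_apply,
        Fin.insertNthEquiv_zero]
      rw [Fin.forall_fin_succ, Fin.sum_univ_succ, and_assoc]
      rfl
    rw [hpre, hmp.measure_preimage hT.nullMeasurableSet]
    rw [Measure.volume_eq_prod, Measure.prod_apply hT]
    have hsec : ∀ t : ℝ, volume (Prod.mk t ⁻¹' T) =
        (Set.Ioo 0 r).indicator (fun t => ENNReal.ofReal ((r - t) ^ n / (n.factorial : ℝ))) t := by
      intro t
      by_cases ht : t ∈ Set.Ioo 0 r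
      · rw [Set.indicator_of_mem ht, ← ih (r - t) (by linarith [ht.2])]
        congr 1
        ext c
        simp only [Set.mem_preimage, T, Set.mem_setOf_eq]
        constructor
        · rintro ⟨_, h2, h3⟩
          exact ⟨h2, by linarith⟩
        · rintro ⟨h2, h3⟩
          exact ⟨ht.1, h2, by linarith⟩
      · rw [Set.indicator_of_notMem ht]
        have : Prod.mk t ⁻¹' T = ∅ := by
          ext c
          simp only [Set.mem_preimage, T, Set.mem_setOf_eq, Set.mem_empty_iff_false, iff_false]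
          rintro ⟨h1, h2, h3⟩
          apply ht
          refine ⟨h1, ?_⟩
          have : 0 ≤ ∑ i, c i := Finset.sum_nonneg fun i _ => (h2 i).le
          linarith
        rw [this, measure_empty]
    simp_rw [hsec]
    rw [lintegral_indicator measurableSet_Ioo]
    have hint : IntervalIntegrable (fun t : ℝ => (r - t) ^ n / (n.factorial : ℝ)) volume 0 r := by
      apply Continuous.intervalIntegrable
      fun_prop
    have hIoc : IntegrableOn (fun t : ℝ => (r - t) ^ n / (n.factorial : ℝ)) (Set.Ioo 0 r) volume :=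
      ((intervalIntegrable_iff_integrableOn_Ioo_of_le hr.le).1 hint)
    rw [← ofReal_integral_eq_lintegral_ofReal hIoc]
    · congr 1
      rw [← integral_Ioc_eq_integral_Ioo, ← intervalIntegral.integral_of_le hr.le]
      have : ∫ t in (0:ℝ)..r, (r - t) ^ n / (n.factorial : ℝ) = (∫ t in (0:ℝ)..r, t ^ n) / (n.factorial : ℝ) := by
        rw [intervalIntegral.integral_div]
        congr 1
        have := intervalIntegral.integral_comp_sub_left (fun t : ℝ => t ^ n) r (a := 0) (b := r)
        rw [this]; simp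
      rw [this, integral_pow, Nat.factorial_succ]
      push_cast
      have h1 : (n.factorial : ℝ) ≠ 0 := by exact_mod_cast n.factorial_ne_zero
      have h2 : (n : ℝ) + 1 ≠ 0 := by positivity
      field_simp
      simp
    · rw [Filter.EventuallyLE, ae_restrict_iff' measurableSet_Ioo]
      refine Filter.Eventually.of_forall fun t ht => ?_
      simp only [Pi.zero_apply]
      have : 0 ≤ r - t := by linarith [ht.2]
      positivity

/-- open standard simplex -/
def simp0 (r : ℕ) : Set (Fin r → ℝ) := {c | (∀ i, 0 < c i) ∧ ∑ i, c i < 1}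

theorem vol_simp0 (n : ℕ) : volume (simp0 n) = ENNReal.ofReal (1 / (n.factorial : ℝ)) := by
  have := vol_simplex_aux n 1 one_pos
  rw [one_pow] at this
  exact this

theorem isOpen_simp0 (r : ℕ) : IsOpen (simp0 r) := by
  have e1 : simp0 r = (⋂ i, {q : (Fin r → ℝ) | 0 < q i}) ∩ {q | ∑ i, q i < 1} := by
    ext q; simp [simp0]
  rw [e1]
  refine IsOpen.inter ?_ ?_
  · refine isOpen_iInter_of_finite fun i => ?_
    exact isOpen_lt continuous_const (continuous_apply i)
  · refine isOpen_lt ?_ continuous_const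
    fun_prop

variable {r k : ℕ}

/-- linear part of the parametrisation of a simplex -/
def L (P : Fin k → Fin r → ℝ) (β : Fin (r + 1) → Fin k) : Matrix (Fin r) (Fin r) ℝ :=
  Matrix.of fun a i => P (β i.succ) a - P (β 0) a

theorem L_apply (P : Fin k → Fin r → ℝ) (β : Fin (r + 1) → Fin k) (c : Fin r → ℝ) :
    (L P β).mulVec c = ∑ i, c i • (P (β i.succ) - P (β 0)) := by
  funext a
  simp [L, Matrix.mulVec, dotProduct, Finset.sum_apply, mul_comm]

/-- the open simplex -/
def cell (P : Fin k → Fin r → ℝ) (β : Fin (r + 1) → Fin k) : Set (Fin r → ℝ) :=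
  (fun c => P (β 0) + (L P β).mulVec c) '' simp0 r

theorem vol_cell (P : Fin k → Fin r → ℝ) (β : Fin (r + 1) → Fin k) :
    volume (cell P β) = ENNReal.ofReal (|(L P β).det| / (r.factorial : ℝ)) := by
  have e : cell P β = (fun x => P (β 0) + x) '' ((Matrix.toLin' (L P β)) '' simp0 r) := by
    rw [Set.image_image]
    rfl
  rw [e, Set.image_add_left, measure_preimage_add, Measure.addHaar_image_linearMap, vol_simp0,
    LinearMap.det_toLin', ← ENNReal.ofReal_mul (abs_nonneg _)]
  congr 1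
  ring

theorem mem_cell (P : Fin k → Fin r → ℝ) (β : Fin (r + 1) → Fin k) (x : Fin r → ℝ) :
    x ∈ cell P β ↔ ∃ w : Fin (r + 1) → ℝ, (∀ i, 0 < w i) ∧ ∑ i, w i = 1 ∧
      ∑ i, w i • P (β i) = x := by
  constructor
  · rintro ⟨c, ⟨hc1, hc2⟩, rfl⟩
    refine ⟨Fin.cons (1 - ∑ i, c i) c, ?_, ?_, ?_⟩
    · intro i
      refine Fin.cases ?_ ?_ i
      · simp only [Fin.cons_zero]; linarith
      · intro j; simp only [Fin.cons_succ]; exact hc1 j
    · rw [Fin.sum_univ_succ]; simp
    · rw [Fin.sum_univ_succ]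
      simp only [Fin.cons_zero, Fin.cons_succ]
      rw [L_apply, sub_smul, one_smul, Finset.sum_smul]
      simp only [smul_sub, Finset.sum_sub_distrib]
      abel
  · rintro ⟨w, hw, hs, rfl⟩
    refine ⟨fun i => w i.succ, ⟨fun i => hw _, ?_⟩, ?_⟩
    · rw [Fin.sum_univ_succ] at hs
      have := hw 0
      linarith
    · show P (β 0) + (L P β).mulVec (fun i => w i.succ) = _
      rw [L_apply, Fin.sum_univ_succ]
      rw [Fin.sum_univ_succ] at hs
      have h0 : w 0 = 1 - ∑ i : Fin r, w i.succ := by linarith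
      rw [h0, sub_smul, one_smul, Finset.sum_smul]
      simp only [smul_sub, Finset.sum_sub_distrib]
      abel

/-- elementary affine independence -/
def Nd (P : Fin k → Fin r → ℝ) (β : Fin (r + 1) → Fin k) : Prop :=
  ∀ μ : Fin (r + 1) → ℝ, ∑ i, μ i = 0 → ∑ i, μ i • P (β i) = 0 → μ = 0

theorem Nd.exists_rep {P : Fin k → Fin r → ℝ} {β : Fin (r + 1) → Fin k} (h : Nd P β)
    (y : Fin r → ℝ) : ∃ α : Fin (r + 1) → ℝ, ∑ i, α i = 1 ∧ ∑ i, α i • P (β i) = y := by
  have hinj : Function.Injective (Matrix.toLin' (L P β)) := by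
    rw [← LinearMap.ker_eq_bot, LinearMap.ker_eq_bot']
    intro c hc
    rw [Matrix.toLin'_apply, L_apply] at hc
    have := h (Fin.cons (-∑ i, c i) c) (by rw [Fin.sum_univ_succ]; simp) (by
      rw [Fin.sum_univ_succ]
      simp only [Fin.cons_zero, Fin.cons_succ]
      rw [neg_smul, Finset.sum_smul, ← hc]
      simp only [smul_sub, Finset.sum_sub_distrib]
      abel)
    funext i
    have h2 := congrFun this i.succ
    simpa using h2
  have hsurj := LinearMap.injective_iff_surjective.1 hinj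
  obtain ⟨c, hc⟩ := hsurj (y - P (β 0))
  rw [Matrix.toLin'_apply, L_apply] at hc
  refine ⟨Fin.cons (1 - ∑ i, c i) c, ?_, ?_⟩
  · rw [Fin.sum_univ_succ]; simp
  · rw [Fin.sum_univ_succ]
    simp only [Fin.cons_zero, Fin.cons_succ]
    rw [sub_smul, one_smul, Finset.sum_smul]
    simp only [smul_sub, Finset.sum_sub_distrib] at hc
    have e : y = P (β 0) + (∑ i, c i • P (β i.succ) - ∑ i, c i • P (β 0)) := by
      rw [hc]; abel
    rw [e]; abel

/-- generic heights -/
def Gen (P : Fin k → Fin r → ℝ) (ω : Fin k → ℝ) : Prop :=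
  ∀ β : Fin (r + 1) ↪o Fin k, Nd P β → ∀ s, s ∉ Set.range β → ∀ α : Fin (r + 1) → ℝ,
    ∑ i, α i = 1 → ∑ i, α i • P (β i) = P s → ∑ i, α i * ω (β i) ≠ ω s

theorem exists_gen (P : Fin k → Fin r → ℝ) : ∃ ω, Gen P ω := by
  classical
  -- representation coefficients
  let A : (Fin (r + 1) ↪o Fin k) → Fin k → (Fin (r + 1) → ℝ) := fun β s =>
    if h : Nd P β then Classical.choose (h.exists_rep (P s)) else 0
  let F : (Fin (r + 1) ↪o Fin k) → Fin k → Submodule ℝ (Fin k → ℝ) := fun β s =>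
    LinearMap.ker ((LinearMap.proj s : (Fin k → ℝ) →ₗ[ℝ] ℝ) -
      ∑ i, A β s i • (LinearMap.proj (β i) : (Fin k → ℝ) →ₗ[ℝ] ℝ))
  have hnull : ∀ (β : Fin (r + 1) ↪o Fin k) (s : Fin k), s ∉ Set.range β →
      volume (F β s : Set (Fin k → ℝ)) = 0 := by
    intro β s hs
    apply Measure.addHaar_submodule
    intro htop
    have : (Pi.single s 1 : Fin k → ℝ) ∈ F β s := by rw [htop]; exact Submodule.mem_top
    rw [LinearMap.mem_ker] at this
    simp only [LinearMap.sub_apply, LinearMap.proj_apply, Pi.single_eq_same, LinearMap.sum_apply,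
      LinearMap.smul_apply] at this
    have h0 : ∀ i, (Pi.single s 1 : Fin k → ℝ) (β i) = 0 := by
      intro i
      apply Pi.single_eq_of_ne
      intro h
      exact hs ⟨i, h⟩
    simp [h0] at this
  have hU : volume (⋃ β : Fin (r + 1) ↪o Fin k, ⋃ s : Fin k, ⋃ (_ : s ∉ Set.range β), (F β s : Set (Fin k → ℝ))) = 0 := by
    rw [measure_iUnion_null_iff]
    intro β
    rw [measure_iUnion_null_iff]
    intro s
    rw [measure_iUnion_null_iff]
    intro hs
    exact hnull β s hs
  have hne : ∃ ω, ω ∉ (⋃ β : Fin (r + 1) ↪o Fin k, ⋃ s : Fin k, ⋃ (_ : s ∉ Set.range β), (F β s : Set (Fin k → ℝ))) := by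
    by_contra hcon
    push Not at hcon
    have : (⋃ β : Fin (r + 1) ↪o Fin k, ⋃ s : Fin k, ⋃ (_ : s ∉ Set.range β), (F β s : Set (Fin k → ℝ))) = Set.univ :=
      Set.eq_univ_of_forall hcon
    rw [this] at hU
    have h2 : (volume : Measure (Fin k → ℝ)) Set.univ ≠ 0 :=
      (isOpen_univ.measure_pos volume Set.univ_nonempty).ne'
    exact h2 hU
  obtain ⟨ω, hω⟩ := hne
  refine ⟨ω, ?_⟩
  intro β hβ s hs α hα1 hα2 heq
  apply hω
  have hA : A β s = α := by
    have hA' : A β s = Classical.choose (hβ.exists_rep (P s)) := by simp only [A, dif_pos hβ]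
    obtain ⟨h1, h2⟩ := Classical.choose_spec (hβ.exists_rep (P s))
    rw [← hA'] at h1 h2
    have := hβ (A β s - α) (by simp [Finset.sum_sub_distrib, h1, hα1]) (by
      simp only [Pi.sub_apply, sub_smul, Finset.sum_sub_distrib]
      rw [h2, hα2, sub_self])
    exact sub_eq_zero.1 this
  simp only [Set.mem_iUnion]
  refine ⟨β, s, hs, ?_⟩
  show ω ∈ F β s
  rw [LinearMap.mem_ker]
  simp only [LinearMap.sub_apply, LinearMap.proj_apply, LinearMap.sum_apply,
      LinearMap.smul_apply, smul_eq_mul]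
  rw [hA, heq, sub_self]

/-- dual feasibility -/
def Opt (P : Fin k → Fin r → ℝ) (ω : Fin k → ℝ) (β : Fin (r + 1) → Fin k) : Prop :=
  Nd P β ∧ ∀ s, ∀ α : Fin (r + 1) → ℝ, ∑ i, α i = 1 → ∑ i, α i • P (β i) = P s →
    ∑ i, α i * ω (β i) ≤ ω s

theorem cell_le {P : Fin k → Fin r → ℝ} {ω : Fin k → ℝ} {β β' : Fin (r + 1) → Fin k}
    (h : Opt P ω β) (w w' : Fin (r + 1) → ℝ) (hw : ∑ i, w i = 1) (hw'0 : ∀ i, 0 < w' i)
    (hw' : ∑ i, w' i = 1) (hx : ∑ i, w i • P (β i) = ∑ i, w' i • P (β' i)) :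
    ∃ α : Fin (r + 1) → Fin (r + 1) → ℝ, (∀ j, ∑ i, α j i = 1) ∧
      (∀ j, ∑ i, α j i • P (β i) = P (β' j)) ∧
      ∑ i, w i * ω (β i) = ∑ j, w' j * ∑ i, α j i * ω (β i) := by
  choose α hα1 hα2 using fun j => h.1.exists_rep (P (β' j))
  refine ⟨α, hα1, hα2, ?_⟩
  have hu : w = fun i => ∑ j, w' j * α j i := by
    have := h.1 (w - fun i => ∑ j, w' j * α j i) (by
      simp only [Pi.sub_apply, Finset.sum_sub_distrib]
      rw [hw, Finset.sum_comm]
      simp only [← Finset.mul_sum, hα1, mul_one, hw', sub_self]) (by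
      simp only [Pi.sub_apply, sub_smul, Finset.sum_sub_distrib]
      rw [hx, sub_eq_zero]
      simp only [Finset.sum_smul]
      rw [Finset.sum_comm]
      apply Finset.sum_congr rfl
      intro j _
      rw [← hα2 j, Finset.smul_sum]
      apply Finset.sum_congr rfl
      intro i _
      rw [smul_smul])
    exact sub_eq_zero.1 this
  rw [hu]
  simp only [Finset.sum_mul, Finset.mul_sum]
  rw [Finset.sum_comm]
  apply Finset.sum_congr rfl
  intro j _
  apply Finset.sum_congr rfl
  intro i _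
  ring

theorem cell_disjoint {P : Fin k → Fin r → ℝ} {ω : Fin k → ℝ} (hg : Gen P ω)
    {β β' : Fin (r + 1) ↪o Fin k}
    (h : Opt P ω β) (h' : Opt P ω β') (hne : β ≠ β') : Disjoint (cell P β) (cell P β') := by
  rw [Set.disjoint_left]
  intro x hx hx'
  rw [mem_cell] at hx hx'
  obtain ⟨w, hw0, hw1, hwx⟩ := hx
  obtain ⟨w', hw'0, hw'1, hw'x⟩ := hx'
  obtain ⟨α, hα1, hα2, hα3⟩ := cell_le (β' := β') h w w' hw1 hw'0 hw'1 (hwx.trans hw'x.symm)
  obtain ⟨α', hα'1, hα'2, hα'3⟩ := cell_le (β' := β) h' w' w hw'1 hw0 hw1 (hw'x.trans hwx.symm)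
  have hle : ∀ j, ∑ i, α j i * ω (β i) ≤ ω (β' j) := fun j => h.2 _ _ (hα1 j) (hα2 j)
  have hle' : ∀ j, ∑ i, α' j i * ω (β' i) ≤ ω (β j) := fun j => h'.2 _ _ (hα'1 j) (hα'2 j)
  have s1 : ∑ j, w' j * ∑ i, α j i * ω (β i) ≤ ∑ j, w' j * ω (β' j) :=
    Finset.sum_le_sum fun j _ => mul_le_mul_of_nonneg_left (hle j) (hw'0 j).le
  have s2 : ∑ j, w j * ∑ i, α' j i * ω (β' i) ≤ ∑ j, w j * ω (β j) :=
    Finset.sum_le_sum fun j _ => mul_le_mul_of_nonneg_left (hle' j) (hw0 j).le
  have s3 : ∑ j, w' j * ∑ i, α j i * ω (β i) = ∑ j, w' j * ω (β' j) := by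
    apply le_antisymm s1
    rw [hα'3, ← hα3]
    exact s2
  have heq : ∀ j, w' j * ∑ i, α j i * ω (β i) = w' j * ω (β' j) := by
    intro j
    exact (Finset.sum_eq_sum_iff_of_le
      (fun j _ => mul_le_mul_of_nonneg_left (hle j) (hw'0 j).le)).1 s3 j (Finset.mem_univ j)
  have heq' : ∀ j, ∑ i, α j i * ω (β i) = ω (β' j) := fun j =>
    mul_left_cancel₀ (hw'0 j).ne' (heq j)
  have hsub : Set.range β' ⊆ Set.range β := by
    rintro s ⟨j, rfl⟩
    by_contra hs
    exact hg β h.1 _ hs (α j) (hα1 j) (hα2 j) (heq' j)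
  have hcard : Set.range β = Set.range β' := by
    symm
    apply Set.eq_of_subset_of_ncard_le hsub
    rw [Set.ncard_eq_toFinset_card', Set.ncard_eq_toFinset_card', Set.toFinset_range,
      Set.toFinset_range, Finset.card_image_of_injective _ β.injective,
      Finset.card_image_of_injective _ β'.injective]
  apply hne
  exact DFunLike.coe_injective ((β.strictMono.range_inj β'.strictMono).1 hcard)

end Pool.Agent.H160R3.Tri
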